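import Pool.Agent.KS6_5.FAD.NotHom

/-!
The algebraic density property of the cone algebra, given that overshears and homogeneous torus
fields are complete.
-/

namespace Pool.Agent.KS6_5.FAD

open Polynomial
open Pool.Agent.W485 (VF IsLND IsOvershear IsCompleteField AlgebraicDensity)

noncomputable section

/-! ### Elementary Lie identities -/

section Lie

variable {B : Type} [CommRing B] [Algebra ℂ B]

lemma lie_id1 (E D : VF B) (k z a0 : B) (hz : E z = 0) (ha : D z = a0) :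
    ⁅k • E, z • D⁆ - ⁅(z * k) • E, D⁆ = (a0 * k) • E := by
  refine Derivation.ext fun a => ?_
  simp only [Derivation.sub_apply, Derivation.commutator_apply, Derivation.smul_apply,
    smul_eq_mul, Derivation.leibniz, hz, ha]
  ring

lemma lie_id2 (E V : VF B) (g h f : B) (hg : E g = 0) (hh : E h = 0) :
    ⁅(g * f) • E, ⁅h • E, V⁆⁆ - ⁅(g * h * f) • E, ⁅E, V⁆⁆ = (g * V h * E f) • E := by
  refine Derivation.ext fun a => ?_
  simp only [Derivation.sub_apply, Derivation.commutator_apply, Derivation.smul_apply,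
    smul_eq_mul, Derivation.leibniz, map_sub, map_add, hg, hh, map_zero]
  ring

lemma lie_smul_right (W V : VF B) (a : B) : a • ⁅W, V⁆ = ⁅W, a • V⁆ - (W a) • V := by
  refine Derivation.ext fun b => ?_
  simp only [Derivation.sub_apply, Derivation.commutator_apply, Derivation.smul_apply,
    smul_eq_mul, Derivation.leibniz]
  ring

/-- The general step. -/
lemma lie_step (L : LieSubalgebra ℂ (VF B)) (E V : VF B) (g h f k : B) (c : ℂ) (hc : c ≠ 0)
    (hg : E g = 0) (hh : E h = 0) (hV : V h = c • (k * h)) (hf : E f = (2 : ℂ) • f)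
    (m1 : (g * f) • E ∈ L) (m2 : h • E ∈ L) (m3 : (g * h * f) • E ∈ L) (m4 : V ∈ L)
    (m5 : E ∈ L) : (f * h * g * k) • E ∈ L := by
  have key := lie_id2 E V g h f hg hh
  have m6 : (g * V h * E f) • E ∈ L := by
    rw [← key]
    exact L.sub_mem (L.lie_mem m1 (L.lie_mem m2 m4)) (L.lie_mem m3 (L.lie_mem m5 m4))
  have e5 : (g * V h * E f) • E = (c * 2) • ((f * h * g * k) • E) := by
    refine Derivation.ext fun a => ?_
    rw [hV, hf]
    simp only [Derivation.smul_apply, smul_eq_mul, mul_smul_comm, smul_mul_assoc, smul_smul]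
    rw [mul_comm (2 : ℂ)]
    congr 1
    ring
  rw [e5] at m6
  have h2 : (c * 2) ≠ 0 := mul_ne_zero hc two_ne_zero
  have m7 := L.smul_mem (c * 2)⁻¹ m6
  rwa [smul_smul, inv_mul_cancel₀ h2, one_smul] at m7

end Lie

variable {r : ℕ} {I : Type} [Fintype I] {K : Cfg r I}

/-! ### Values of the basic derivations -/

lemma EA_zA (σ : LG r →+ ℂ) : EA σ (zA : K.AA) = 0 := by
  have := EA_sg (K := K) σ 0 X zz_mem
  rw [map_zero, zero_smul] at this
  exact this

/-- The element `t^f`. -/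
def a0 : K.AA := mkA (tt K.ff) (tt_mem ff_nonneg)

lemma D0_zA : K.D0 zA = a0 := by
  apply inc_inj
  change K.D0R (sg 0 X) = tt K.ff
  rw [D0R_sg, derivative_X, add_zero]

lemma EA_a0 (k : Fin r) : EA (K.xc k) (a0 : K.AA) = (2 : ℂ) • a0 := by
  unfold a0
  rw [EA_sg, xc_apply, xi_ff]
  norm_num

/-! ### The Lie algebra generated by the complete fields -/

/-- The Lie algebra generated by the complete fields. -/
def LL (K : Cfg r I) : LieSubalgebra ℂ (VF K.AA) :=
  LieSubalgebra.lieSpan ℂ (VF K.AA) {V | IsCompleteField V}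

/-- The completeness hypotheses. -/
structure Hyp (K : Cfg r I) : Prop where
  hover : ∀ V : VF K.AA, IsOvershear V → IsCompleteField V
  htorus : ∀ (σ : LG r →+ ℂ) (m : LG r) (P : ℂ[X]) (h : sg m P ∈ K.A), σ m = 0 →
    IsCompleteField (mkA (sg m P) h • (EA σ : VF K.AA))

lemma mem_LL {V : VF K.AA} (h : IsCompleteField V) : V ∈ LL K :=
  LieSubalgebra.subset_lieSpan h

lemma lnd_mem (H : Hyp K) {V : VF K.AA} (h : IsLND V) : V ∈ LL K := by
  refine mem_LL (H.hover V ⟨V, 1, h, ?_, (one_smul _ _).symm⟩)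
  rw [Derivation.map_one_eq_zero, map_zero]

lemma torus_mem (H : Hyp K) (σ : LG r →+ ℂ) (m : LG r) (P : ℂ[X]) (h : sg m P ∈ K.A)
    (hσ : σ m = 0) : mkA (sg m P) h • (EA σ : VF K.AA) ∈ LL K := mem_LL (H.htorus σ m P h hσ)

lemma EA_mem (H : Hyp K) (σ : LG r →+ ℂ) : EA σ ∈ LL K := by
  have h := torus_mem H σ 0 1 (zero_mem_sg 1) (map_zero σ)
  have h1 : mkA (sg 0 1) (zero_mem_sg 1) = (1 : K.AA) := rfl
  rwa [h1, one_smul] at h

lemma zD0_mem (H : Hyp K) : (zA : K.AA) • K.D0 ∈ LL K := by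
  refine mem_LL (H.hover _ ⟨K.D0, zA, D0_lnd, ?_, rfl⟩)
  rw [D0_zA]
  exact D0_tt _ _

lemma a0_torus_mem (H : Hyp K) (σ : LG r →+ ℂ) (m : LG r) (P : ℂ[X]) (h : sg m P ∈ K.A)
    (hσ : σ m = 0) : (a0 * mkA (sg m P) h) • EA σ ∈ LL K := by
  rw [← lie_id1 (EA σ) K.D0 (mkA (sg m P) h) zA a0 (EA_zA σ) D0_zA]
  have h1 : zA * mkA (sg m P) h = mkA (sg m (X * P)) (by
      have := sg_mem_add (K := K) zz_mem h
      rwa [zero_add] at this) := by
    apply inc_inj
    rw [map_mul]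
    change sg 0 X * sg m P = sg m (X * P)
    rw [sg_mul, zero_add]
  refine (LL K).sub_mem ((LL K).lie_mem (torus_mem H σ m P h hσ) (zD0_mem H))
    ((LL K).lie_mem ?_ ?_)
  · rw [h1]
    exact torus_mem H σ m _ _ hσ
  · exact lnd_mem H D0_lnd

lemma EA_kill {σ : LG r →+ ℂ} {n : LG r} {P : ℂ[X]} {h : sg n P ∈ K.A} (hσ : σ n = 0) :
    EA σ (mkA (sg n P) h) = 0 := by rw [EA_sg, hσ, zero_smul]

/-- The general step: products of homogeneous elements. -/
lemma step_mem (H : Hyp K) (k : Fin r) (σ : LG r →+ ℂ) {p q m : LG r}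
    (hp : ∀ j, 0 ≤ K.co j p) (hq : ∀ j, 0 ≤ K.co j q) (cp : K.xc k p = 0) (cq : K.xc k q = 0)
    (P : ℂ[X]) (h : sg m P ∈ K.A) (hσ : σ m = 0) (hσp : σ p ≠ 0) :
    (a0 * mkA (tt p) (tt_mem hp) * mkA (tt q) (tt_mem hq) * mkA (sg m P) h) • EA (K.xc k) ∈
      LL K := by
  have hmem : sg (q + p) (1 * 1) ∈ K.A := sg_mem_add (tt_mem hq) (tt_mem hp)
  have h1 : mkA (tt q) (tt_mem hq) * mkA (tt p) (tt_mem hp) = mkA (sg (q + p) (1 * 1)) hmem :=
    mkA_mul _ _ _ _ _ _ hmem
  refine lie_step (LL K) (EA (K.xc k)) (mkA (sg m P) h • EA σ) (mkA (tt q) (tt_mem hq))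
    (mkA (tt p) (tt_mem hp)) a0 (mkA (sg m P) h) (σ p) hσp (EA_kill cq) (EA_kill cp) ?_
    (EA_a0 k) ?_ (torus_mem H (K.xc k) p 1 (tt_mem hp) cp) ?_ (torus_mem H σ m P h hσ)
    (EA_mem H _)
  · rw [Derivation.smul_apply, EA_sg, smul_eq_mul, mul_smul_comm]
  · rw [mul_comm]
    exact a0_torus_mem H (K.xc k) q 1 (tt_mem hq) cq
  · rw [h1, mul_comm]
    exact a0_torus_mem H (K.xc k) (q + p) _ hmem (by rw [map_add, cq, cp, add_zero])

lemma exists_two (K : Cfg r I) (j : Fin r) : ∃ p : Fin r × Fin r,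
    p.1 ≠ j ∧ p.2 ≠ j ∧ p.1 ≠ p.2 := by
  have h3 := K.three
  have hcard : 2 ≤ (Finset.univ.erase j : Finset (Fin r)).card := by
    rw [Finset.card_erase_of_mem (Finset.mem_univ j), Finset.card_univ, Fintype.card_fin]
    omega
  obtain ⟨a, ha, b, hb, hab⟩ := Finset.one_lt_card.1 hcard
  exact ⟨(a, b), Finset.ne_of_mem_erase ha, Finset.ne_of_mem_erase hb, hab⟩

/-- Two indices different from the given one. -/
def Cfg.pq (K : Cfg r I) (j : Fin r) : Fin r × Fin r := Classical.choose (exists_two K j)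

lemma pq_spec (j : Fin r) : (K.pq j).1 ≠ j ∧ (K.pq j).2 ≠ j ∧ (K.pq j).1 ≠ (K.pq j).2 :=
  Classical.choose_spec (exists_two K j)

/-- The multiplier `F_j`. -/
def Cfg.FF (K : Cfg r I) (j : Fin r) : K.AA := a0 * K.x (K.pq j).1 * K.x (K.pq j).2

lemma FF_mem_sg (H : Hyp K) (j : Fin r) (m : LG r) (P : ℂ[X]) (h : sg m P ∈ K.A) :
    (K.FF j * mkA (sg m P) h) • EA (K.xc j) ∈ LL K := by
  obtain ⟨h1, h2, h3⟩ := pq_spec (K := K) j
  set k := (K.pq j).1 with hk
  set l := (K.pq j).2 with hl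
  have jk : K.xc j (K.e k) = 0 := by rw [xc_e, if_neg h1.symm]
  have jl : K.xc j (K.e l) = 0 := by rw [xc_e, if_neg h2.symm]
  by_cases hm : K.xc k m = 0
  · exact step_mem H j (K.xc k) (fun i => K.e_nonneg i k) (fun i => K.e_nonneg i l) jk jl P h hm
      (by rw [xc_e, if_pos rfl]; exact one_ne_zero)
  · let σ : LG r →+ ℂ := (AddMonoidHom.mulLeft (K.xc k m)).comp (K.xc l) -
      (AddMonoidHom.mulLeft (K.xc l m)).comp (K.xc k)
    have hσ : ∀ n, σ n = K.xc k m * K.xc l n - K.xc l m * K.xc k n := fun n => rfl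
    have h5 := step_mem H j σ (fun i => K.e_nonneg i l) (fun i => K.e_nonneg i k) jl jk P h
      (by rw [hσ]; ring) (by
        rw [hσ, xc_e, xc_e, if_pos rfl, if_neg h3, mul_one, mul_zero, sub_zero]
        exact hm)
    have h6 : K.FF j * mkA (sg m P) h =
        a0 * K.x l * K.x k * mkA (sg m P) h := by
      unfold Cfg.FF
      rw [← hk, ← hl]
      ring
    rw [h6]
    exact h5

lemma FF_mem (H : Hyp K) (j : Fin r) (a : K.AA) : (K.FF j * a) • EA (K.xc j) ∈ LL K := by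
  refine AA_induction (p := fun a => (K.FF j * a) • EA (K.xc j) ∈ LL K) ?_ ?_ ?_ a
  · rw [mul_zero, zero_smul]
    exact (LL K).zero_mem
  · intro a b ha hb
    rw [mul_add, add_smul]
    exact (LL K).add_mem ha hb
  · intro n P hP
    exact FF_mem_sg H j n P hP

/-- The largest submodule over the algebra contained in `LL`. -/
def NNN (K : Cfg r I) : Submodule K.AA (VF K.AA) where
  carrier := {V | ∀ a : K.AA, a • V ∈ LL K}
  add_mem' := by
    intro V W hV hW a
    rw [smul_add]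
    exact (LL K).add_mem (hV a) (hW a)
  zero_mem' := by
    intro a
    rw [smul_zero]
    exact (LL K).zero_mem
  smul_mem' := by
    intro c V hV a
    rw [smul_smul]
    exact hV _

lemma NNN_lie {W V : VF K.AA} (hW : W ∈ LL K) (hV : V ∈ NNN K) : ⁅W, V⁆ ∈ NNN K := by
  intro a
  rw [lie_smul_right]
  exact (LL K).sub_mem ((LL K).lie_mem hW (hV a)) (hV _)

lemma FE_mem (H : Hyp K) (j : Fin r) : K.FF j • EA (K.xc j) ∈ NNN K := by
  intro a
  rw [smul_smul, mul_comm]
  exact FF_mem H j a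

lemma D0_x (k : Fin r) : K.D0 (K.x k) = 0 := D0_tt _ _

lemma D0_FF (j : Fin r) : K.D0 (K.FF j) = 0 := by
  unfold Cfg.FF a0
  rw [Derivation.leibniz, Derivation.leibniz, D0_tt, D0_x, D0_x]
  simp only [smul_zero, add_zero]

lemma EA_x (k l : Fin r) : EA (K.xc k) (K.x l) = if k = l then K.x l else 0 := by
  unfold Cfg.x
  rw [EA_sg, xc_e]
  split_ifs
  · rw [one_smul]
  · rw [zero_smul]

lemma lie_D0_EA (j : Fin r) : ⁅K.D0, EA (K.xc j)⁆ = (-2 : ℂ) • K.D0 := by
  apply VF_ext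
  · rw [Derivation.commutator_apply, EA_zA, map_zero, D0_zA, EA_a0, Derivation.smul_apply, D0_zA]
    rw [zero_sub, neg_smul]
  · intro k
    rw [Derivation.commutator_apply, D0_x, map_zero, Derivation.smul_apply, D0_x, smul_zero,
      sub_zero]
    unfold Cfg.x
    rw [EA_sg, K.D0.map_smul, D0_tt, smul_zero]

lemma FD_mem (H : Hyp K) (j : Fin r) : K.FF j • K.D0 ∈ NNN K := by
  have h1 : ⁅K.D0, K.FF j • EA (K.xc j)⁆ ∈ NNN K := NNN_lie (lnd_mem H D0_lnd) (FE_mem H j)
  have h2 : ⁅K.D0, K.FF j • EA (K.xc j)⁆ = (-2 : ℂ) • (K.FF j • K.D0) := by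
    have h3 := lie_smul_right K.D0 (EA (K.xc j)) (K.FF j)
    rw [D0_FF, zero_smul, sub_zero] at h3
    rw [← h3, lie_D0_EA, smul_comm]
  rw [h2] at h1
  have h4 : (-2 : ℂ)⁻¹ • ((-2 : ℂ) • (K.FF j • K.D0)) ∈ NNN K := by
    rw [← algebraMap_smul K.AA ((-2 : ℂ)⁻¹)]
    exact (NNN K).smul_mem _ h1
  rwa [smul_smul, inv_mul_cancel₀ (by norm_num), one_smul] at h4

/-- The ideal of multipliers of all derivations into `NNN`. -/
def II (K : Cfg r I) : Ideal K.AA where
  carrier := {a | ∀ V : VF K.AA, a • V ∈ NNN K}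
  add_mem' := by
    intro a b ha hb V
    rw [add_smul]
    exact (NNN K).add_mem (ha V) (hb V)
  zero_mem' := by
    intro V
    rw [zero_smul]
    exact (NNN K).zero_mem
  smul_mem' := by
    intro c a ha V
    rw [smul_assoc]
    exact (NNN K).smul_mem c (ha V)

lemma II_stable {a : K.AA} (ha : a ∈ II K) {W : VF K.AA} (hW : W ∈ LL K) : W a ∈ II K := by
  intro V
  have h := lie_smul_right W V a
  have h1 : (W a) • V = ⁅W, a • V⁆ - a • ⁅W, V⁆ := by rw [h]; abel
  rw [h1]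
  exact (NNN K).sub_mem (NNN_lie hW (ha V)) (ha _)

lemma II_smul {a : K.AA} {c : ℂ} (hc : c ≠ 0) (h : c • a ∈ II K) : a ∈ II K := by
  have h1 : c⁻¹ • (c • a) ∈ II K := by
    rw [← algebraMap_smul K.AA c⁻¹ (c • a)]
    exact (II K).smul_mem _ h
  rwa [smul_smul, inv_mul_cancel₀ hc, one_smul] at h1

lemma vf_sum_apply {ι : Type} (s : Finset ι) (D : ι → VF K.AA) (a : K.AA) :
    (∑ i ∈ s, D i) a = ∑ i ∈ s, D i a := by
  classical
  induction s using Finset.induction_on with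
  | empty => rfl
  | insert b s hb ih =>
    rw [Finset.sum_insert hb, Finset.sum_insert hb, Derivation.add_apply, ih]

lemma expand (V : VF K.AA) : ((∏ k, K.x k) * a0) • V =
    ((∏ k, K.x k) * V zA) • K.D0 +
      ∑ k, (a0 * (∏ l ∈ Finset.univ.erase k, K.x l) * V (K.x k)) • EA (K.xc k) := by
  apply VF_ext
  · rw [Derivation.add_apply, Derivation.smul_apply, Derivation.smul_apply, vf_sum_apply, D0_zA]
    have : ∀ k ∈ Finset.univ, ((a0 * (∏ l ∈ Finset.univ.erase k, K.x l) * V (K.x k)) •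
        EA (K.xc k)) (zA : K.AA) = 0 := by
      intro k _
      rw [Derivation.smul_apply, EA_zA, smul_zero]
    rw [Finset.sum_eq_zero this, add_zero, smul_eq_mul, smul_eq_mul]
    ring
  · intro l
    rw [Derivation.add_apply, Derivation.smul_apply, Derivation.smul_apply, vf_sum_apply, D0_x,
      smul_zero, zero_add]
    have : ∀ k ∈ Finset.univ, ((a0 * (∏ l ∈ Finset.univ.erase k, K.x l) * V (K.x k)) •
        EA (K.xc k)) (K.x l) =
        if k = l then (a0 * (∏ j ∈ Finset.univ.erase k, K.x j) * V (K.x k)) * K.x l else 0 := by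
      intro k _
      rw [Derivation.smul_apply, EA_x, smul_eq_mul, mul_ite, mul_zero]
    rw [Finset.sum_congr rfl this, Finset.sum_ite_eq' Finset.univ l, if_pos (Finset.mem_univ l),
      smul_eq_mul, ← Finset.mul_prod_erase _ _ (Finset.mem_univ l)]
    ring

lemma FFprod (j : Fin r) : ∃ c : K.AA, ∏ k, K.FF k = c * K.FF j :=
  ⟨∏ k ∈ Finset.univ.erase j, K.FF k, by
    rw [← Finset.mul_prod_erase _ _ (Finset.mem_univ j), mul_comm]⟩

lemma TT_mem (H : Hyp K) : (∏ k, K.FF k) * ((∏ k, K.x k) * a0) ∈ II K := by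
  intro V
  rw [mul_smul, expand, smul_add, Finset.smul_sum]
  refine (NNN K).add_mem ?_ ((NNN K).sum_mem fun k _ => ?_)
  · have hr : 0 < r := lt_of_lt_of_le (by norm_num) K.three
    obtain ⟨c, hc⟩ := FFprod (K := K) ⟨0, hr⟩
    rw [hc, smul_smul, mul_comm c, mul_assoc, mul_comm, mul_smul]
    exact (NNN K).smul_mem _ (FD_mem H _)
  · obtain ⟨c, hc⟩ := FFprod (K := K) k
    rw [hc, smul_smul, mul_comm c, mul_assoc, mul_comm, mul_smul]
    exact (NNN K).smul_mem _ (FE_mem H _)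

/-- Monomials with nonnegative exponents. -/
def IsMono (a : K.AA) : Prop := ∃ (n : LG r) (hn : ∀ j, 0 ≤ K.co j n), a = mkA (tt n) (tt_mem hn)

lemma IsMono.mul {a b : K.AA} (ha : IsMono a) (hb : IsMono b) : IsMono (a * b) := by
  obtain ⟨p, hp, rfl⟩ := ha
  obtain ⟨q, hq, rfl⟩ := hb
  refine ⟨p + q, fun j => by rw [map_add]; exact add_nonneg (hp j) (hq j), ?_⟩
  apply inc_inj
  rw [map_mul]
  exact tt_mul p q

lemma isMono_one : IsMono (1 : K.AA) := ⟨0, fun j => by rw [map_zero], rfl⟩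

lemma IsMono.prod {ι : Type} (s : Finset ι) {a : ι → K.AA} (h : ∀ i ∈ s, IsMono (a i)) :
    IsMono (∏ i ∈ s, a i) := by
  classical
  induction s using Finset.induction_on with
  | empty => rw [Finset.prod_empty]; exact isMono_one
  | insert b s hb ih =>
    rw [Finset.prod_insert hb]
    exact (h b (Finset.mem_insert_self _ _)).mul
      (ih fun i hi => h i (Finset.mem_insert_of_mem hi))

lemma isMono_x (k : Fin r) : IsMono (K.x k) := ⟨K.e k, fun i => K.e_nonneg i k, rfl⟩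

lemma isMono_a0 : IsMono (a0 : K.AA) := ⟨K.ff, ff_nonneg, rfl⟩

/-- The ideal contains a monomial. -/
lemma exists_monomial (H : Hyp K) :
    ∃ (n : LG r) (hn : ∀ j, 0 ≤ K.co j n), mkA (tt n) (tt_mem hn) ∈ II K := by
  have h := TT_mem H
  have hm : IsMono ((∏ k, K.FF k) * ((∏ k, K.x k) * a0)) :=
    (IsMono.prod _ fun k _ => (isMono_a0.mul (isMono_x _)).mul (isMono_x _)).mul
      ((IsMono.prod _ fun k _ => isMono_x k).mul isMono_a0)
  obtain ⟨n, hn, e⟩ := hm
  exact ⟨n, hn, by rw [← e]; exact h⟩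

lemma lower (H : Hyp K) (i : I) : ∀ (k : ℕ) (n : LG r) (hn : ∀ j, 0 ≤ K.co j n),
    K.co i n = k → mkA (tt n) (tt_mem hn) ∈ II K →
    ∃ (n' : LG r) (hn' : ∀ j, 0 ≤ K.co j n'), K.co i n' = 0 ∧
      mkA (tt n') (tt_mem hn') ∈ II K := by
  intro k
  induction k with
  | zero => intro n hn hi h; exact ⟨n, hn, by exact_mod_cast hi, h⟩
  | succ k ih =>
    intro n hn hi h
    have hn' : ∀ j, 0 ≤ K.co j (K.kap i + n) := by
      intro j
      rw [map_add]
      by_cases hj : j = i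
      · subst hj
        rw [K.kap_self, hi]
        push_cast
        omega
      · have h1 := K.kap_ne i j hj
        have h2 := hn j
        omega
    refine ih (K.kap i + n) hn' (by rw [map_add, K.kap_self, hi]; push_cast; ring) ?_
    have h1 := II_stable h (lnd_mem H (Dk_lnd i))
    rw [Dk_tt i n (tt_mem hn) (tt_mem hn')] at h1
    refine II_smul ?_ h1
    rw [cc_apply, hi]
    exact_mod_cast Nat.succ_ne_zero k

lemma W_neg_eq {n : LG r} (hn : ∀ j, 0 ≤ K.co j n) :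
    (pz (K.W (-n)) : K.AA) = mkA (sg (-n) (K.W (-n))) (W_mem (-n)) * mkA (tt n) (tt_mem hn) := by
  apply inc_inj
  rw [map_mul]
  change sg 0 (K.W (-n)) = sg (-n) (K.W (-n)) * sg n 1
  rw [sg_mul, neg_add_cancel, mul_one]

/-- An ideal containing, for every `i`, a nonnegative monomial not involving `t_i`, is the unit
ideal. -/
lemma ideal_top (J : Ideal K.AA) (h : ∀ i, ∃ (n : LG r) (hn : ∀ j, 0 ≤ K.co j n),
    K.co i n = 0 ∧ mkA (tt n) (tt_mem hn) ∈ J) : (1 : K.AA) ∈ J := by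
  have hWJ : ∀ i, ∃ n : LG r, K.co i n = 0 ∧ (pz (K.W (-n)) : K.AA) ∈ J := by
    intro i
    obtain ⟨n, hn, h0, hJ⟩ := h i
    exact ⟨n, h0, by rw [W_neg_eq hn]; exact J.mul_mem_left _ hJ⟩
  let J' : Ideal ℂ[X] := J.comap (aeval zA : ℂ[X] →ₐ[ℂ] K.AA)
  have hJ : ∀ P, P ∈ J' ↔ (pz P : K.AA) ∈ J := by
    intro P
    rw [Ideal.mem_comap, pz_eq]
  obtain ⟨q, hq⟩ := (IsPrincipalIdealRing.principal J').principal
  have hW : ∀ i, ∃ n : LG r, K.co i n = 0 ∧ q ∣ K.W (-n) := by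
    intro i
    obtain ⟨n, h0, h⟩ := hWJ i
    refine ⟨n, h0, ?_⟩
    have h1 : K.W (-n) ∈ J' := (hJ _).2 h
    rw [hq] at h1
    exact Ideal.mem_span_singleton.1 h1
  have hu : IsUnit q := by
    rw [Polynomial.isUnit_iff_degree_eq_zero]
    by_contra hdeg
    obtain ⟨y0, hy0⟩ := IsAlgClosed.exists_root q hdeg
    have hroot : ∀ i, ∃ n : LG r, K.co i n = 0 ∧ (K.W (-n)).eval y0 = 0 := by
      intro i
      obtain ⟨n, h0, ⟨s, hs⟩⟩ := hW i
      refine ⟨n, h0, ?_⟩
      rw [hs, eval_mul, hy0, zero_mul]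
    have heval : ∀ n : LG r, (K.W (-n)).eval y0 = ∏ i, (y0 - K.y i) ^ cw (K.co i (-n)) := by
      intro n
      unfold Cfg.W
      rw [eval_prod]
      refine Finset.prod_congr rfl fun i _ => ?_
      rw [eval_pow]
      unfold Cfg.l
      rw [eval_sub, eval_X, eval_C]
    obtain ⟨i0⟩ := K.ne
    obtain ⟨n, -, hn⟩ := hroot i0
    rw [heval, Finset.prod_eq_zero_iff] at hn
    obtain ⟨j, -, hj⟩ := hn
    have hj' : y0 = K.y j := by
      by_contra hne
      exact pow_ne_zero _ (sub_ne_zero.2 hne) hj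
    obtain ⟨n', h0', hn'⟩ := hroot j
    rw [heval, Finset.prod_eq_zero_iff] at hn'
    obtain ⟨j', -, hj2⟩ := hn'
    by_cases hjj : j' = j
    · subst hjj
      rw [map_neg, h0'] at hj2
      have : cw (-0) = 0 := rfl
      rw [this, pow_zero] at hj2
      exact one_ne_zero hj2
    · apply hjj
      apply K.y_inj
      rw [← hj']
      by_contra hne
      exact pow_ne_zero _ (sub_ne_zero.2 (Ne.symm hne)) hj2
  have h1 : (1 : ℂ[X]) ∈ J' := by
    rw [hq]
    exact Ideal.mem_span_singleton.2 hu.dvd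
  exact (hJ 1).1 h1

lemma one_mem_II (H : Hyp K) : (1 : K.AA) ∈ II K := by
  refine ideal_top _ fun i => ?_
  obtain ⟨n, hn, h⟩ := exists_monomial H
  exact lower H i (K.co i n).toNat n hn (by rw [Int.toNat_of_nonneg (hn i)]) h

/-- The algebraic density property, given completeness of the basic fields. -/
theorem algebraicDensity_of (H : Hyp K) : AlgebraicDensity K.AA := by
  unfold AlgebraicDensity
  refine eq_top_iff.2 fun V _ => ?_
  have h := one_mem_II H V 1
  rw [one_smul, one_smul] at h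
  exact h

end

end Pool.Agent.KS6_5.FAD
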