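import Pool.Graph.R_pool_sql_team_seeded_f72693b1.W485.Defs

/-!
The algebra of a cone: given functionals `co i` on the lattice `ℤ ^ r` and points `y i` on the
line, the subalgebra of `ℂ[X][ℤ ^ r]` of all elements whose coefficient at `n` vanishes at `y i` to
order at least half of `- co i n`.
-/

namespace Pool.Agent.KS6_5.FAD

open Polynomial

noncomputable section

/-- The lattice of exponents. -/
abbrev LG (r : ℕ) : Type := Fin r → ℤ

/-- The Laurent polynomial algebra over `ℂ[X]`. -/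
abbrev LR (r : ℕ) : Type := AddMonoidAlgebra ℂ[X] (LG r)

/-- `cw k` is the least natural number which is at least `- k / 2`. -/
def cw (k : ℤ) : ℕ := ((1 - k) / 2).toNat

lemma cw_nonneg {k : ℤ} (h : 0 ≤ k) : cw k = 0 := by unfold cw; omega

lemma cw_add (a b : ℤ) : cw (a + b) ≤ cw a + cw b := by unfold cw; omega

variable {r : ℕ} {I : Type}

/-- The algebra: all Laurent polynomials whose coefficient at `n` is divisible by
`(X - y i) ^ cw (co i n)` for all `i`. -/
def coneAlg (co : I → (LG r →+ ℤ)) (y : I → ℂ) : Subalgebra ℂ (LR r) where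
  carrier := {F | ∀ n i, (X - C (y i)) ^ cw (co i n) ∣ F.coeff n}
  add_mem' := by
    intro a b ha hb n i
    rw [AddMonoidAlgebra.coeff_add]
    exact dvd_add (ha n i) (hb n i)
  mul_mem' := by
    intro a b ha hb n i
    rw [AddMonoidAlgebra.coeff_mul]
    refine Finset.dvd_sum fun p hp => Finset.dvd_sum fun q hq => ?_
    show (X - C (y i)) ^ cw (co i n) ∣ (if p + q = n then a.coeff p * b.coeff q else 0)
    split_ifs with h
    · rw [← h, map_add]
      refine dvd_trans (pow_dvd_pow _ (cw_add _ _)) ?_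
      rw [pow_add]
      exact mul_dvd_mul (ha p i) (hb q i)
    · exact dvd_zero _
  algebraMap_mem' := by
    intro c n i
    rw [AddMonoidAlgebra.coe_algebraMap, Function.comp, AddMonoidAlgebra.coeff_single,
      Finsupp.single_apply]
    split_ifs with h
    · rw [← h, map_zero, cw_nonneg le_rfl, pow_zero]
      exact one_dvd _
    · exact dvd_zero _

/-- The algebra as a type. -/
def CA (co : I → (LG r →+ ℤ)) (y : I → ℂ) : Type := coneAlg co y

instance (co : I → (LG r →+ ℤ)) (y : I → ℂ) : CommRing (CA co y) :=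
  inferInstanceAs (CommRing (coneAlg co y))

instance (co : I → (LG r →+ ℤ)) (y : I → ℂ) : Algebra ℂ (CA co y) :=
  inferInstanceAs (Algebra ℂ (coneAlg co y))

instance (co : I → (LG r →+ ℤ)) (y : I → ℂ) : IsDomain (CA co y) :=
  inferInstanceAs (IsDomain (coneAlg co y))

/-- The combinatorial data used in the proofs. -/
structure Cfg (r : ℕ) (I : Type) [Fintype I] where
  /-- the functionals -/
  co : I → (LG r →+ ℤ)
  /-- the points -/
  y : I → ℂ
  y_inj : Function.Injective y
  /-- a basis of the lattice -/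
  e : Fin r → LG r
  /-- the dual basis -/
  xi : Fin r → (LG r →+ ℤ)
  xi_e : ∀ k l, xi k (e l) = if k = l then 1 else 0
  decomp : ∀ n, n = ∑ k, xi k n • e k
  e_nonneg : ∀ i k, 0 ≤ co i (e k)
  e_pos : ∀ i, ∃ k, 0 < co i (e k)
  /-- the degrees of the derivations -/
  kap : I → LG r
  kap_self : ∀ i, co i (kap i) = -1
  kap_ne : ∀ i j, j ≠ i → 2 ≤ co j (kap i)
  /-- the generic exponents -/
  gg : I → LG r
  gg_self : ∀ i, co i (gg i) = 1
  gg_pos : ∀ i j, 0 < co j (gg i)
  /-- the weight -/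
  w : LG r →+ ℤ
  w_neg : ∀ n, w n < 0 → ∃ i j, i ≠ j ∧ co i n < 0 ∧ co j n < 0
  w_pos : ∃ n, (∀ i, 0 ≤ co i n) ∧ 0 < w n
  /-- the functionals span -/
  spn : ∀ k, ∃ a : I → ℂ, ∀ n, ((xi k n : ℤ) : ℂ) = ∑ i, a i * ((co i n : ℤ) : ℂ)
  three : 3 ≤ r
  ne : Nonempty I

variable [Fintype I]

/-- The subalgebra of a configuration. -/
abbrev Cfg.A (K : Cfg r I) : Subalgebra ℂ (LR r) := coneAlg K.co K.y

/-- The algebra of a configuration. -/
abbrev Cfg.AA (K : Cfg r I) : Type := CA K.co K.y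

/-- The linear polynomial vanishing at `y i`. -/
def Cfg.l (K : Cfg r I) (i : I) : ℂ[X] := X - C (K.y i)

variable {K : Cfg r I}

lemma mem_A {F : LR r} : F ∈ K.A ↔ ∀ n i, K.l i ^ cw (K.co i n) ∣ F.coeff n := Iff.rfl

/-- The monomials in the ambient algebra. -/
abbrev sg (n : LG r) (P : ℂ[X]) : LR r := AddMonoidAlgebra.single n P

lemma sg_mem {n : LG r} {P : ℂ[X]} : sg n P ∈ K.A ↔ ∀ i, K.l i ^ cw (K.co i n) ∣ P := by
  rw [mem_A]
  constructor
  · intro h i
    have := h n i
    rwa [AddMonoidAlgebra.coeff_single, Finsupp.single_eq_same] at this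
  · intro h m i
    rw [AddMonoidAlgebra.coeff_single, Finsupp.single_apply]
    split_ifs with hm
    · rw [← hm]; exact h i
    · exact dvd_zero _

lemma sg_mem_of_nonneg {n : LG r} (hn : ∀ i, 0 ≤ K.co i n) (P : ℂ[X]) : sg n P ∈ K.A := by
  rw [sg_mem]
  intro i
  rw [cw_nonneg (hn i), pow_zero]
  exact one_dvd _

lemma coeff_mem {F : LR r} (hF : F ∈ K.A) (n : LG r) : sg n (F.coeff n) ∈ K.A :=
  sg_mem.2 (fun i => hF n i)

/-- Induction on homogeneous elements. -/
lemma A_induction {p : LR r → Prop} (h0 : p 0)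
    (hadd : ∀ a ∈ K.A, ∀ b ∈ K.A, p a → p b → p (a + b))
    (hs : ∀ n P, sg n P ∈ K.A → p (sg n P)) {F : LR r} (hF : F ∈ K.A) : p F := by
  have key : ∀ s : Finset (LG r), (∑ n ∈ s, sg n (F.coeff n)) ∈ K.A ∧
      p (∑ n ∈ s, sg n (F.coeff n)) := by
    intro s
    induction s using Finset.induction_on with
    | empty => exact ⟨by simp, by simpa using h0⟩
    | insert a s ha ih =>
      rw [Finset.sum_insert ha]
      exact ⟨K.A.add_mem (coeff_mem hF a) ih.1,
        hadd _ (coeff_mem hF a) _ ih.1 (hs _ _ (coeff_mem hF a)) ih.2⟩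
  have h := (key F.coeff.support).2
  have h2 : ∑ n ∈ F.coeff.support, sg n (F.coeff n) = F :=
    AddMonoidAlgebra.sum_coeff_single F
  rwa [h2] at h

/-- The element `z`. -/
def zz : LR r := sg 0 X

lemma zz_mem : (zz : LR r) ∈ K.A := sg_mem_of_nonneg (fun i => by rw [map_zero]) _

/-- The inclusion into the ambient algebra. -/
def inc : K.AA →ₐ[ℂ] LR r := (coneAlg K.co K.y).val

lemma inc_inj : Function.Injective (inc : K.AA → LR r) := Subtype.val_injective

lemma inc_mem (a : K.AA) : inc a ∈ K.A := a.2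

/-- Elements of `K.AA` from elements of the ambient algebra. -/
def mkA (F : LR r) (h : F ∈ K.A) : K.AA := ⟨F, h⟩

lemma inc_mkA (F : LR r) (h : F ∈ K.A) : inc (mkA F h) = F := rfl

lemma mkA_inc (a : K.AA) : mkA (inc a) (inc_mem a) = a := rfl

lemma mkA_zero (h : (0 : LR r) ∈ K.A) : mkA 0 h = 0 := rfl

lemma mkA_add (a b : LR r) (ha : a ∈ K.A) (hb : b ∈ K.A) (h : a + b ∈ K.A) :
    mkA (a + b) h = mkA a ha + mkA b hb := rfl

/-- Induction for statements about elements of the algebra. -/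
lemma AA_induction {p : K.AA → Prop} (h0 : p 0) (hadd : ∀ a b, p a → p b → p (a + b))
    (hs : ∀ n P (h : sg n P ∈ K.A), p (mkA (sg n P) h)) (a : K.AA) : p a := by
  have key : ∀ F ∈ K.A, ∀ hF : F ∈ K.A, p (mkA F hF) := by
    intro F hF
    refine A_induction (p := fun F => ∀ hF : F ∈ K.A, p (mkA F hF)) ?_ ?_ ?_ hF
    · intro h
      rw [mkA_zero]
      exact h0
    · intro a ha b hb iha ihb h
      rw [mkA_add a b ha hb h]
      exact hadd _ _ (iha ha) (ihb hb)
    · intro n P _ hP
      exact hs n P hP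
  exact key (inc a) (inc_mem a) (inc_mem a)

end

end Pool.Agent.KS6_5.FAD
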