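import Pool.Agent.KS6_5.FAD.NotAOSD

/-!
The Lie algebra generated by the overshears has infinite codimension.
-/

namespace Pool.Agent.KS6_5.FAD

open Polynomial
open Pool.Agent.W485 (VF IsLND IsOvershear IsCompleteField OvershearDensity)

noncomputable section

variable {r : ℕ} {I : Type} [Fintype I] {K : Cfg r I}

/-- Fields of arbitrarily negative weight. -/
def Cfg.UU (K : Cfg r I) (g : LG r) (m : ℕ) : VF K.AA :=
  mkA (sg (-((m + 1) • g)) (K.W (-((m + 1) • g)))) (W_mem _) •
    EA ((Int.castAddHom ℂ).comp K.w)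

lemma UU_tt {g : LG r} (hg : ∀ i, 0 ≤ K.co i g) (m : ℕ) :
    inc (K.UU g m (mkA (tt g) (tt_mem hg))) =
      sg (-((m + 1) • g) + g) (((K.w g : ℤ) : ℂ) • K.W (-((m + 1) • g))) := by
  unfold Cfg.UU
  rw [Derivation.smul_apply, smul_eq_mul, map_mul]
  change sg (-((m + 1) • g)) (K.W (-((m + 1) • g))) *
    EE ((Int.castAddHom ℂ).comp K.w) (sg g 1) = _
  rw [EE_sg, sg_mul]
  change sg _ (_ * (((K.w g : ℤ) : ℂ) • (1 : ℂ[X]))) = _
  rw [mul_smul_comm, mul_one]

/-- The Lie algebra generated by the overshears has infinite codimension in the Lie algebra of all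
derivations. -/
theorem overshear_codim (K : Cfg r I) : ¬ Module.Finite ℂ
    (VF K.AA ⧸ (LieSubalgebra.lieSpan ℂ (VF K.AA) {V | IsOvershear V}).toSubmodule) := by
  classical
  intro hfin
  obtain ⟨g, hg, hw⟩ := K.w_pos
  set L := LieSubalgebra.lieSpan ℂ (VF K.AA) {V | IsOvershear V} with hL
  have hle : L ≤ filt K (K.w g) := by
    rw [hL, LieSubalgebra.lieSpan_le]
    intro V hV a ha
    exact overshear_NN hV ha
  have hli : LinearIndependent ℂ (fun m : ℕ => L.toSubmodule.mkQ (K.UU g m)) := by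
    rw [linearIndependent_iff']
    intro s c hsum m hm
    by_contra hc
    have h1 : L.toSubmodule.mkQ (∑ m ∈ s, c m • K.UU g m) = 0 := by
      rw [map_sum, ← hsum]
      exact Finset.sum_congr rfl fun m _ => map_smul _ _ _
    rw [Submodule.mkQ_apply, Submodule.Quotient.mk_eq_zero] at h1
    have h2 : (∑ m ∈ s, c m • K.UU g m) ∈ filt K (K.w g) := hle h1
    have h3 : K.NN (K.w g) (inc (mkA (tt g) (tt_mem hg))) := Lo.NN (Lo_sg g 1)
    have h4 := h2 (mkA (tt g) (tt_mem hg)) h3
    have h5 : inc ((∑ m ∈ s, c m • K.UU g m) (mkA (tt g) (tt_mem hg))) =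
        ∑ m ∈ s, c m • sg (-((m + 1) • g) + g) (((K.w g : ℤ) : ℂ) • K.W (-((m + 1) • g))) := by
      have h6 : (∑ m ∈ s, c m • K.UU g m) (mkA (tt g) (tt_mem hg)) =
          ∑ m ∈ s, c m • (K.UU g m (mkA (tt g) (tt_mem hg))) := by
        have : ∀ t : Finset ℕ, (∑ m ∈ t, c m • K.UU g m) (mkA (tt g) (tt_mem hg)) =
            ∑ m ∈ t, c m • (K.UU g m (mkA (tt g) (tt_mem hg))) := by
          intro t
          induction t using Finset.induction_on with
          | empty => rfl
          | insert b t hb ih =>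
            rw [Finset.sum_insert hb, Finset.sum_insert hb, Derivation.add_apply, ih]
            rfl
        exact this s
      rw [h6, map_sum]
      exact Finset.sum_congr rfl fun m _ => by rw [map_smul, UU_tt hg]
    rw [h5] at h4
    have hinj : ∀ a b : ℕ, -((a + 1) • g) + g = -((b + 1) • g) + g → a = b := by
      intro a b hab
      have h7 := congrArg K.w hab
      rw [map_add, map_add, map_neg, map_neg, map_nsmul, map_nsmul, nsmul_eq_mul,
        nsmul_eq_mul] at h7
      have h8 : ((a + 1 : ℕ) : ℤ) * K.w g = ((b + 1 : ℕ) : ℤ) * K.w g := by linarith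
      have h9 := mul_right_cancel₀ hw.ne' h8
      have h10 : a + 1 = b + 1 := by exact_mod_cast h9
      omega
    have h6 := h4 (-((m + 1) • g) + g) (by
      rw [sum_coeff]
      have h7 : ∀ b ∈ s, (c b • sg (-((b + 1) • g) + g)
          (((K.w g : ℤ) : ℂ) • K.W (-((b + 1) • g)))).coeff (-((m + 1) • g) + g) =
          if b = m then c m • (((K.w g : ℤ) : ℂ) • K.W (-((m + 1) • g))) else 0 := by
        intro b _
        rw [AddMonoidAlgebra.coeff_smul, Finsupp.smul_apply, sg_coeff]
        by_cases hbm : b = m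
        · subst hbm
          rw [if_pos rfl, if_pos rfl]
        · rw [if_neg fun h => hbm (hinj _ _ h), if_neg hbm, smul_zero]
      rw [Finset.sum_congr rfl h7, Finset.sum_ite_eq' s m, if_pos hm]
      refine smul_ne_zero hc (smul_ne_zero ?_ (W_ne_zero _))
      exact_mod_cast hw.ne')
    rw [map_add, map_neg, map_nsmul, nsmul_eq_mul] at h6
    push_cast at h6
    have h7 : (0 : ℤ) < (m + 1) * K.w g := mul_pos (by omega) hw
    omega
  have h := (hli.comp (fun i : Fin (Module.finrank ℂ (VF K.AA ⧸ L.toSubmodule) + 1) => (i : ℕ))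
    Fin.val_injective).fintype_card_le_finrank
  rw [Fintype.card_fin] at h
  omega

end

end Pool.Agent.KS6_5.FAD
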