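import Pool.Agent.KS6_5.FAD.AD
import Pool.Graph.R_pool_sql_team_seeded_f72693b1.W641.OvsComplete

/-!
Overshears and homogeneous torus fields are complete; hence the algebraic density property.
-/

namespace Pool.Agent.KS6_5.FAD

open Polynomial
open Pool.Agent.W485 (VF IsLND IsOvershear IsCompleteField AlgebraicDensity)

noncomputable section

variable {r : ℕ} {I : Type} [Fintype I] {K : Cfg r I}

section Torus

variable (σ : LG r →+ ℂ) (u : ℂ)

/-- The diagonal automorphism of the ambient algebra. -/
def TR : LR r →ₗ[ℂ] LR r := diag fun n => Complex.exp (u * σ n) • LinearMap.id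

lemma TR_sg (n : LG r) (P : ℂ[X]) : TR σ u (sg n P) = sg n (Complex.exp (u * σ n) • P) :=
  diag_sg _ _ _

lemma TR_coeff (F : LR r) (n : LG r) :
    (TR σ u F).coeff n = Complex.exp (u * σ n) • F.coeff n := diag_coeff _ _ _

lemma TR_mem {F : LR r} (hF : F ∈ K.A) : TR σ u F ∈ K.A := by
  intro n i
  rw [TR_coeff]
  exact dvd_smul_of_dvd _ (hF n i)

lemma TR_mul (a b : LR r) : TR σ u (a * b) = TR σ u a * TR σ u b := by
  induction a using AddMonoidAlgebra.induction_linear with
  | zero => simp
  | add x y hx hy => rw [add_mul, map_add, hx, hy, map_add]; ring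
  | single m P =>
    induction b using AddMonoidAlgebra.induction_linear with
    | zero => simp
    | add x y hx hy => rw [mul_add, map_add, hx, hy, map_add]; ring
    | single n Q =>
      change TR σ u (sg m P * sg n Q) = TR σ u (sg m P) * TR σ u (sg n Q)
      rw [sg_mul, TR_sg, TR_sg, TR_sg, sg_mul, map_add, mul_add, Complex.exp_add, mul_smul,
        smul_mul_smul_comm, mul_smul]

lemma TR_one : TR σ u 1 = 1 := by
  rw [one_eq_sg, TR_sg, map_zero, mul_zero, Complex.exp_zero, one_smul]

/-- The diagonal automorphism of the algebra. -/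
def TA (K : Cfg r I) (σ : LG r →+ ℂ) (u : ℂ) : K.AA →ₐ[ℂ] K.AA :=
  AlgHom.ofLinearMap
    { toFun := fun a => mkA (TR σ u (inc a)) (TR_mem σ u (inc_mem a))
      map_add' := fun a b => inc_inj (by
        rw [map_add inc (mkA _ _), inc_mkA, inc_mkA, inc_mkA, map_add, map_add])
      map_smul' := fun c a => inc_inj (by
        rw [RingHom.id_apply, map_smul inc c (mkA _ _), inc_mkA, inc_mkA, map_smul inc c a,
          map_smul]) }
    (inc_inj (by
      change TR σ u (inc (1 : K.AA)) = inc (1 : K.AA)
      rw [map_one, TR_one]))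
    (by
      intro a b
      apply inc_inj
      change TR σ u (inc (a * b)) = _
      rw [map_mul, TR_mul, map_mul]
      rfl)

lemma inc_TA (a : K.AA) : inc (TA K σ u a) = TR σ u (inc a) := rfl

lemma TA_sg (n : LG r) (P : ℂ[X]) (h : sg n P ∈ K.A) :
    TA K σ u (mkA (sg n P) h) = Complex.exp (u * σ n) • mkA (sg n P) h := by
  apply inc_inj
  rw [inc_TA, inc_mkA, TR_sg, map_smul inc, inc_mkA, smul_sg]

end Torus

theorem torus_complete (σ : LG r →+ ℂ) (m : LG r) (P : Polynomial ℂ)
    (h : sg m P ∈ K.A) (hσ : σ m = 0) :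
    IsCompleteField (mkA (sg m P) h • (EA σ : VF K.AA)) := by
  intro x
  set k : ℂ := x (mkA (sg m P) h) with hk
  refine ⟨fun t => x.comp (TA K σ (t * k)), ?_, ?_⟩
  · ext a
    simp only [AlgHom.comp_apply, zero_mul]
    congr 1
    apply inc_inj
    rw [inc_TA]
    apply AddMonoidAlgebra.coeff_injective
    ext1 n
    rw [TR_coeff, zero_mul, Complex.exp_zero, one_smul]
  · intro f t
    refine AA_induction (p := fun f => HasDerivAt (fun s => (x.comp (TA K σ (s * k))) f)
        ((x.comp (TA K σ (t * k))) ((mkA (sg m P) h • (EA σ : VF K.AA)) f)) t) ?_ ?_ ?_ f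
    · simp only [map_zero]
      exact hasDerivAt_const t (0 : ℂ)
    · intro a b ia ib
      have h1 := ia.add ib
      simp only [map_add]
      exact h1
    · intro n Q hQ'
      have e2 : (mkA (sg m P) h • (EA σ : VF K.AA)) (mkA (sg n Q) hQ') =
          mkA (sg m P) h * (σ n • mkA (sg n Q) hQ') := by
        rw [Derivation.smul_apply, EA_sg, smul_eq_mul]
      have e3 : ∀ s : ℂ, (x.comp (TA K σ (s * k))) (mkA (sg n Q) hQ') =
          Complex.exp (s * k * σ n) * x (mkA (sg n Q) hQ') := by
        intro s
        rw [AlgHom.comp_apply, TA_sg, map_smul, smul_eq_mul]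
      have e4 : (x.comp (TA K σ (t * k))) (mkA (sg m P) h) = k := by
        rw [AlgHom.comp_apply, TA_sg, map_smul, smul_eq_mul, hσ, mul_zero, Complex.exp_zero,
          one_mul]
      rw [e2, map_mul, e4, map_smul, smul_eq_mul, e3]
      simp only [e3]
      have h1 : HasDerivAt (fun s : ℂ => Complex.exp (s * k * σ n))
          (Complex.exp (t * k * σ n) * (k * σ n)) t := by
        have h2 : HasDerivAt (fun s : ℂ => s * k * σ n) (k * σ n) t := by
          have := ((hasDerivAt_id t).mul_const k).mul_const (σ n)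
          simpa using this
        exact h2.cexp
      refine (h1.mul_const _).congr_deriv ?_
      ring

/-- The algebraic density property. -/
theorem algebraicDensity (K : Cfg r I) : AlgebraicDensity K.AA :=
  algebraicDensity_of
    ⟨fun V hV => Pool.Agent.W485.W641C.overshear_complete V hV,
      fun σ m P h hσ => torus_complete σ m P h hσ⟩

end

end Pool.Agent.KS6_5.FAD
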