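import Pool.Agent.KS6_5.FAD.Alg

/-!
Every non-simplicial pointed cone gives a configuration.
-/

namespace Pool.Agent.KS6_5.FAD

noncomputable section

variable {r : ℕ} {I : Type} [Fintype I]

lemma exists_large (co : I → (LG r →+ ℤ)) (i : I) (v : LG r) (hv : ∀ j, j ≠ i → 0 < co j v)
    (u : LG r) (B : ℤ) : ∃ M : ℕ, ∀ j, j ≠ i → B ≤ co j (u + M • v) := by
  refine ⟨∑ j, (B - co j u).toNat, fun j hj => ?_⟩
  have h1 : (B - co j u).toNat ≤ ∑ j, (B - co j u).toNat :=
    Finset.single_le_sum (f := fun j => (B - co j u).toNat) (fun _ _ => Nat.zero_le _)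
      (Finset.mem_univ j)
  have h2 := hv j hj
  rw [map_add, map_nsmul, nsmul_eq_mul]
  have h3 : ((∑ j, (B - co j u).toNat : ℕ) : ℤ) ≤ (∑ j, (B - co j u).toNat : ℕ) * co j v :=
    le_mul_of_one_le_right (by omega) (by omega)
  omega

/-- A primitive interior vector extends to a basis inside the cone. -/
lemma exists_basis (co : I → (LG r →+ ℤ)) (i0 : I) (g : LG r) (h1 : co i0 g = 1)
    (hg : ∀ j, 0 < co j g) : ∃ (e : Fin r → LG r) (xi : Fin r → (LG r →+ ℤ)),
      (∀ k l, xi k (e l) = if k = l then 1 else 0) ∧ (∀ n, n = ∑ k, xi k n • e k) ∧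
      (∀ i k, 0 ≤ co i (e k)) ∧ ∃ k, e k = g := by
  classical
  let c0 : LG r →ₗ[ℤ] ℤ := (co i0).toIntLinearMap
  have hc0 : ∀ n, c0 n = co i0 n := fun _ => rfl
  let N : Submodule ℤ (LG r) := LinearMap.ker c0
  let b := Module.Free.chooseBasis ℤ N
  let ι := Module.Free.ChooseBasisIndex ℤ N
  -- the projection to the kernel
  let π : LG r →ₗ[ℤ] N := LinearMap.codRestrict N (LinearMap.id - c0.smulRight g) (by
    intro n
    rw [LinearMap.mem_ker, LinearMap.sub_apply, LinearMap.smulRight_apply, LinearMap.id_apply,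
      map_sub, map_smul, hc0 g, h1, smul_eq_mul, mul_one, sub_self])
  have hπ : ∀ n, (π n : LG r) = n - co i0 n • g := fun _ => rfl
  have hπg : π g = 0 := by
    apply Subtype.ext
    rw [hπ, h1, one_smul, sub_self]
    rfl
  have hπb : ∀ l, π (b l : LG r) = b l := by
    intro l
    apply Subtype.ext
    have h : co i0 (b l : LG r) = 0 := (b l).2
    rw [hπ, h, zero_smul, sub_zero]
  obtain ⟨M, hM⟩ : ∃ M : ℕ, ∀ i (l : ι), 0 ≤ co i ((b l : LG r) + M • g) := by
    refine ⟨∑ i, ∑ l : ι, (-(co i (b l))).toNat, fun i l => ?_⟩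
    have h2 : (-(co i (b l))).toNat ≤ ∑ i, ∑ l : ι, (-(co i (b l))).toNat :=
      (Finset.single_le_sum (f := fun l : ι => (-(co i (b l))).toNat) (fun _ _ => Nat.zero_le _)
        (Finset.mem_univ l)).trans
        (Finset.single_le_sum (f := fun i => ∑ l : ι, (-(co i (b l))).toNat)
          (fun _ _ => Nat.zero_le _) (Finset.mem_univ i))
    have h3 := hg i
    rw [map_add, map_nsmul, nsmul_eq_mul]
    have h4 : ((∑ i, ∑ l : ι, (-(co i (b l))).toNat : ℕ) : ℤ) ≤
        (∑ i, ∑ l : ι, (-(co i (b l))).toNat : ℕ) * co i g :=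
      le_mul_of_one_le_right (by omega) (by omega)
    omega
  -- the basis and its dual indexed by `Option ι`
  let e' : Option ι → LG r := fun a => match a with
    | none => g
    | some l => (b l : LG r) + M • g
  let be : ι → (LG r →ₗ[ℤ] ℤ) := fun l => (b.coord l).comp π
  let xi' : Option ι → (LG r →ₗ[ℤ] ℤ) := fun a => match a with
    | none => c0 - M • ∑ l, be l
    | some l => be l
  have hbeg : ∀ l, be l g = 0 := by
    intro l
    change b.coord l (π g) = 0
    rw [hπg, map_zero]
  have hbeb : ∀ k l, be k (b l : LG r) = if k = l then 1 else 0 := by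
    intro k l
    change b.coord k (π (b l : LG r)) = _
    rw [hπb, Module.Basis.coord_apply, Module.Basis.repr_self, Finsupp.single_apply]
    simp only [eq_comm]
  have hxi : ∀ k l, xi' k (e' l) = if k = l then 1 else 0 := by
    intro k l
    cases k with
    | none =>
      cases l with
      | none =>
        change (c0 - M • ∑ l, be l) g = _
        rw [LinearMap.sub_apply, LinearMap.smul_apply, LinearMap.sum_apply]
        simp only [hbeg, Finset.sum_const_zero, smul_zero, sub_zero, if_true]
        exact h1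
      | some l =>
        change (c0 - M • ∑ l, be l) ((b l : LG r) + M • g) = _
        rw [LinearMap.sub_apply, LinearMap.smul_apply, LinearMap.sum_apply]
        simp only [map_add, map_nsmul, hbeg, hbeb, smul_zero, add_zero]
        have h : c0 (b l : LG r) = 0 := (b l).2
        rw [h, hc0, h1, Finset.sum_ite_eq' Finset.univ l, if_pos (Finset.mem_univ l), zero_add,
          sub_self]
        simp
    | some k =>
      cases l with
      | none =>
        change be k g = _
        rw [hbeg]
        simp
      | some l =>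
        change be k ((b l : LG r) + M • g) = _
        rw [map_add, map_nsmul, hbeg, hbeb, smul_zero, add_zero]
        simp
  have hdec : ∀ n, n = ∑ a, xi' a n • e' a := by
    intro n
    rw [Fintype.sum_option]
    change n = ((c0 - M • ∑ l, be l) n) • g + ∑ l, (be l n) • ((b l : LG r) + M • g)
    have h2 : ∑ l, (be l n) • (b l : LG r) = n - co i0 n • g := by
      rw [← hπ n, ← b.sum_repr (π n)]
      rw [Submodule.coe_sum]
      rfl
    simp only [smul_add, Finset.sum_add_distrib]
    rw [h2, LinearMap.sub_apply, LinearMap.smul_apply, LinearMap.sum_apply, sub_smul,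
      ← Finset.sum_smul, hc0]
    rw [smul_assoc, smul_comm M]
    abel
  -- reindex
  have hcard : Fintype.card (Option ι) = r := by
    let f : LG r ≃ₗ[ℤ] (Option ι → ℤ) :=
      { toFun := fun n a => xi' a n
        map_add' := fun m n => funext fun a => map_add _ _ _
        map_smul' := fun c n => funext fun a => map_smul _ _ _
        invFun := fun c => ∑ a, c a • e' a
        left_inv := fun n => (hdec n).symm
        right_inv := fun c => by
          funext a
          change xi' a (∑ b, c b • e' b) = c a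
          rw [map_sum]
          simp only [map_smul, hxi, smul_eq_mul, mul_ite, mul_one, mul_zero]
          rw [Finset.sum_ite_eq Finset.univ a, if_pos (Finset.mem_univ a)] }
    have h2 := f.finrank_eq
    rw [Module.finrank_fintype_fun_eq_card, Module.finrank_fintype_fun_eq_card,
      Fintype.card_fin] at h2
    exact h2.symm
  let q : Fin r ≃ Option ι := (Fintype.equivFinOfCardEq hcard).symm
  refine ⟨fun k => e' (q k), fun k => (xi' (q k)).toAddMonoidHom, ?_, ?_, ?_, q.symm none, ?_⟩
  · intro k l
    change xi' (q k) (e' (q l)) = _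
    rw [hxi]
    simp only [q.injective.eq_iff]
  · intro n
    change n = ∑ k, xi' (q k) n • e' (q k)
    rw [q.sum_comp fun a => xi' a n • e' a]
    exact hdec n
  · intro i k
    change 0 ≤ co i (e' (q k))
    cases q k with
    | none => exact (hg i).le
    | some l => exact hM i l
  · change e' (q (q.symm none)) = g
    rw [q.apply_symm_apply]

/-- More functionals than the rank: there is a weight whose negative half-space is covered by the
pairwise intersections of the negative half-spaces of the functionals. -/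
lemma exists_weight (co : I → (LG r →+ ℤ)) (hI : r < Fintype.card I) (g : LG r)
    (hg : ∀ j, 0 < co j g) : ∃ w : LG r →+ ℤ,
      (∀ n, w n < 0 → ∃ i j, i ≠ j ∧ co i n < 0 ∧ co j n < 0) ∧ 0 < w g := by
  classical
  let v : I → (Fin r → ℤ) := fun i k => co i (Pi.single k 1)
  have hv : ¬ LinearIndependent ℤ v := by
    intro h
    have := h.fintype_card_le_finrank
    rw [Module.finrank_fintype_fun_eq_card, Fintype.card_fin] at this
    omega
  obtain ⟨c, hc, i0, hi0⟩ := Fintype.not_linearIndependent_iff.1 hv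
  have hrel : ∀ n : LG r, ∑ i, c i * co i n = 0 := by
    intro n
    have hn : ∀ i, co i n = ∑ k, n k * v i k := by
      intro i
      have h1 : n = ∑ k, n k • (Pi.single k 1 : LG r) := by
        funext j
        rw [Finset.sum_apply]
        simp [Pi.single_apply]
      conv_lhs => rw [h1]
      rw [map_sum]
      exact Finset.sum_congr rfl fun k _ => by rw [map_zsmul, smul_eq_mul]
    simp only [hn, Finset.mul_sum]
    rw [Finset.sum_comm]
    refine Finset.sum_eq_zero fun k _ => ?_
    have h2 := congrFun hc k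
    rw [Finset.sum_apply] at h2
    simp only [Pi.smul_apply, smul_eq_mul, Pi.zero_apply] at h2
    rw [← mul_zero (n k), ← h2, Finset.mul_sum]
    exact Finset.sum_congr rfl fun i _ => by ring
  let w : LG r →+ ℤ := ∑ i, (max (c i) 0) • co i
  have hw : ∀ n, w n = ∑ i, max (c i) 0 * co i n := by
    intro n
    change (∑ i, (max (c i) 0) • co i) n = _
    rw [AddMonoidHom.finsetSum_apply]
    rfl
  have hw' : ∀ n, w n = ∑ i, max (-c i) 0 * co i n := by
    intro n
    have h1 : ∑ i, max (c i) 0 * co i n - ∑ i, max (-c i) 0 * co i n = ∑ i, c i * co i n := by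
      rw [← Finset.sum_sub_distrib]
      refine Finset.sum_congr rfl fun i _ => ?_
      rw [← sub_mul]
      congr 1
      omega
    rw [hrel n] at h1
    rw [hw]
    exact sub_eq_zero.1 h1
  refine ⟨w, ?_, ?_⟩
  · intro n hn
    have h1 : ∃ i, max (c i) 0 * co i n < 0 := by
      by_contra h
      push Not at h
      rw [hw] at hn
      exact absurd (Finset.sum_nonneg fun i _ => h i) (not_le.2 hn)
    have h2 : ∃ i, max (-c i) 0 * co i n < 0 := by
      by_contra h
      push Not at h
      rw [hw'] at hn
      exact absurd (Finset.sum_nonneg fun i _ => h i) (not_le.2 hn)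
    obtain ⟨i, hi⟩ := h1
    obtain ⟨j, hj⟩ := h2
    have hi1 : co i n < 0 := by
      by_contra h
      exact absurd (mul_nonneg (le_max_right (c i) 0) (not_lt.1 h)) (not_le.2 hi)
    have hj1 : co j n < 0 := by
      by_contra h
      exact absurd (mul_nonneg (le_max_right (-c j) 0) (not_lt.1 h)) (not_le.2 hj)
    refine ⟨i, j, ?_, hi1, hj1⟩
    rintro rfl
    rcases le_total (c i) 0 with h | h
    · rw [max_eq_right h, zero_mul] at hi
      exact lt_irrefl _ hi
    · rw [max_eq_right (neg_nonpos.2 h), zero_mul] at hj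
      exact lt_irrefl _ hj
  · rcases lt_or_gt_of_ne hi0 with h | h
    · rw [hw']
      refine Finset.sum_pos' (fun i _ => mul_nonneg (le_max_right _ _) (hg i).le)
        ⟨i0, Finset.mem_univ _, mul_pos (lt_max_of_lt_left (neg_pos.2 h)) (hg i0)⟩
    · rw [hw]
      refine Finset.sum_pos' (fun i _ => mul_nonneg (le_max_right _ _) (hg i).le)
        ⟨i0, Finset.mem_univ _, mul_pos (lt_max_of_lt_left h) (hg i0)⟩

/-- If the functionals separate points, their complex span contains all functionals. -/
lemma exists_span (co : I → (LG r →+ ℤ)) (hsep : ∀ n, (∀ i, co i n = 0) → n = 0)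
    (e : Fin r → LG r) (xi : Fin r → (LG r →+ ℤ))
    (hxi : ∀ k l, xi k (e l) = if k = l then 1 else 0) (hdec : ∀ n, n = ∑ k, xi k n • e k)
    (k : Fin r) : ∃ a : I → ℂ, ∀ n, ((xi k n : ℤ) : ℂ) = ∑ i, a i * ((co i n : ℤ) : ℂ) := by
  classical
  let M : Matrix I (Fin r) ℤ := fun i l => co i (e l)
  let S : Matrix (Fin r) (Fin r) ℤ := M.transpose * M
  have hdet : S.det ≠ 0 := by
    intro h0
    obtain ⟨v, hv, hSv⟩ := Matrix.exists_mulVec_eq_zero_iff.2 h0
    apply hv
    have h1 : v ⬝ᵥ (S.mulVec v) = 0 := by rw [hSv, dotProduct_zero]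
    have h2 : v ⬝ᵥ (S.mulVec v) = (M.mulVec v) ⬝ᵥ (M.mulVec v) := by
      change v ⬝ᵥ ((M.transpose * M).mulVec v) = _
      rw [← Matrix.mulVec_mulVec, Matrix.dotProduct_mulVec, Matrix.vecMul_transpose]
    rw [h2] at h1
    have h3 : M.mulVec v = 0 := dotProduct_self_eq_zero.1 h1
    have h4 : ∀ i, co i (∑ l, v l • e l) = 0 := by
      intro i
      rw [map_sum]
      have h5 := congrFun h3 i
      change ∑ l, M i l * v l = 0 at h5
      rw [← h5]
      exact Finset.sum_congr rfl fun l _ => by
        rw [map_zsmul, smul_eq_mul, mul_comm]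
    have h5 := hsep _ h4
    funext l
    have h6 := congrArg (xi l) h5
    rw [map_sum, map_zero] at h6
    simp only [map_zsmul, hxi, smul_eq_mul, mul_ite, mul_one, mul_zero] at h6
    rw [Finset.sum_ite_eq Finset.univ l, if_pos (Finset.mem_univ l)] at h6
    exact h6
  have hdetC : ((S.det : ℤ) : ℂ) ≠ 0 := by exact_mod_cast hdet
  let T : Matrix (Fin r) I ℤ := S.adjugate * M.transpose
  have hT : ∀ l, ∑ i, T k i * co i (e l) = if k = l then S.det else 0 := by
    intro l
    have h1 : T * M = S.det • (1 : Matrix (Fin r) (Fin r) ℤ) := by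
      change S.adjugate * M.transpose * M = _
      rw [Matrix.mul_assoc]
      exact Matrix.adjugate_mul S
    have h2 := congrFun (congrFun h1 k) l
    rw [Matrix.mul_apply, Matrix.smul_apply, Matrix.one_apply] at h2
    rw [smul_eq_mul, mul_ite, mul_one, mul_zero] at h2
    exact h2
  refine ⟨fun i => ((T k i : ℤ) : ℂ) / ((S.det : ℤ) : ℂ), fun n => ?_⟩
  have hn : ∀ i, co i n = ∑ l, xi l n * co i (e l) := by
    intro i
    refine (congrArg (co i) (hdec n)).trans ?_
    rw [map_sum]
    exact Finset.sum_congr rfl fun l _ => by rw [map_zsmul, smul_eq_mul]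
  have h3 : ∑ i, T k i * co i n = S.det * xi k n := by
    simp only [hn, Finset.mul_sum]
    rw [Finset.sum_comm]
    have h4 : ∀ l ∈ Finset.univ, ∑ i, T k i * (xi l n * co i (e l)) =
        if k = l then S.det * xi l n else 0 := by
      intro l _
      have h5 : ∑ i, T k i * (xi l n * co i (e l)) = xi l n * ∑ i, T k i * co i (e l) := by
        rw [Finset.mul_sum]
        exact Finset.sum_congr rfl fun i _ => by ring
      rw [h5, hT]
      split_ifs
      · ring
      · ring
    rw [Finset.sum_congr rfl h4, Finset.sum_ite_eq Finset.univ k, if_pos (Finset.mem_univ k)]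
  have h6 : ∑ i, ((T k i : ℤ) : ℂ) / ((S.det : ℤ) : ℂ) * ((co i n : ℤ) : ℂ) =
      (((∑ i, T k i * co i n : ℤ)) : ℂ) / ((S.det : ℤ) : ℂ) := by
    push_cast
    rw [Finset.sum_div]
    exact Finset.sum_congr rfl fun i _ => by ring
  rw [h6, h3, Int.cast_mul, mul_div_cancel_left₀ _ hdetC]

/-- Every non-simplicial pointed cone of rank at least three gives a configuration. -/
theorem exists_cfg (co : I → (LG r →+ ℤ)) (y : I → ℂ)
    (hr : 3 ≤ r) (hI : r < Fintype.card I) (hy : Function.Injective y)
    (hprim : ∀ i, ∃ u, co i u = 1)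
    (hface : ∀ i, ∃ v, co i v = 0 ∧ ∀ j, j ≠ i → 0 < co j v)
    (hsep : ∀ n, (∀ i, co i n = 0) → n = 0) :
    ∃ K : Cfg r I, K.co = co ∧ K.y = y := by
  classical
  choose u hu using hprim
  choose v hv0 hv using hface
  have hne : Nonempty I := Fintype.card_pos_iff.1 (by omega)
  -- the vectors
  have hk : ∀ i, ∃ κ, co i κ = -1 ∧ ∀ j, j ≠ i → 2 ≤ co j κ := by
    intro i
    obtain ⟨M, hM⟩ := exists_large co i (v i) (hv i) (-u i) 2
    exact ⟨-u i + M • v i, by rw [map_add, map_neg, map_nsmul, hu, hv0, smul_zero, add_zero], hM⟩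
  have hg : ∀ i, ∃ g, co i g = 1 ∧ ∀ j, 0 < co j g := by
    intro i
    obtain ⟨M, hM⟩ := exists_large co i (v i) (hv i) (u i) 1
    have h1 : co i (u i + M • v i) = 1 := by
      rw [map_add, map_nsmul, hu, hv0, smul_zero, add_zero]
    refine ⟨u i + M • v i, h1, fun j => ?_⟩
    by_cases hj : j = i
    · subst hj
      omega
    · have := hM j hj
      omega
  choose κ hκ hκ' using hk
  choose g hg1 hg2 using hg
  obtain ⟨i0⟩ := hne
  obtain ⟨e, xi, h1, h2, h3, k0, hk0⟩ := exists_basis co i0 (g i0) (hg1 i0) (hg2 i0)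
  obtain ⟨w, hw, hw'⟩ := exists_weight co hI (g i0) (hg2 i0)
  exact ⟨{ co := co, y := y, y_inj := hy, e := e, xi := xi, xi_e := h1, decomp := h2,
           e_nonneg := h3, e_pos := fun i => ⟨k0, by rw [hk0]; exact hg2 i0 i⟩,
           kap := κ, kap_self := hκ, kap_ne := hκ', gg := g, gg_self := hg1, gg_pos := hg2,
           w := w, w_neg := hw, w_pos := ⟨g i0, fun i => (hg2 i0 i).le, hw'⟩,
           spn := fun k => exists_span co hsep e xi h1 h2 k, three := hr, ne := ⟨i0⟩ },
    rfl, rfl⟩

end

end Pool.Agent.KS6_5.FAD
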