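import Pool.Agent.KS6_5.FAD.Alg

/-!
Derivations of the ambient algebra and of the cone algebra.
-/

namespace Pool.Agent.KS6_5.FAD

open Polynomial
open Pool.Agent.W485 (VF IsLND IsOvershear IsCompleteField)

noncomputable section

variable {r : ℕ}

/-- A diagonal linear operator. -/
def diag (φ : LG r → (ℂ[X] →ₗ[ℂ] ℂ[X])) : LR r →ₗ[ℂ] LR r :=
  (Finsupp.lsum ℂ (fun n => (AddMonoidAlgebra.lsingle n : ℂ[X] →ₗ[ℂ] LR r) ∘ₗ φ n)) ∘ₗ
    (AddMonoidAlgebra.coeffLinearEquiv ℂ).toLinearMap

lemma diag_sg (φ : LG r → (ℂ[X] →ₗ[ℂ] ℂ[X])) (n : LG r) (P : ℂ[X]) :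
    diag φ (sg n P) = sg n (φ n P) := by
  unfold diag
  rw [LinearMap.comp_apply]
  change Finsupp.lsum ℂ _ (Finsupp.single n P) = _
  rw [Finsupp.lsum_single]
  rfl

lemma diag_coeff (φ : LG r → (ℂ[X] →ₗ[ℂ] ℂ[X])) (F : LR r) (n : LG r) :
    (diag φ F).coeff n = φ n (F.coeff n) := by
  induction F using AddMonoidAlgebra.induction_linear with
  | zero => simp
  | add x y hx hy => simp only [map_add, AddMonoidAlgebra.coeff_add, Finsupp.add_apply, hx, hy]
  | single m P =>
    change (diag φ (sg m P)).coeff n = _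
    rw [diag_sg, AddMonoidAlgebra.coeff_single, AddMonoidAlgebra.coeff_single,
      Finsupp.single_apply, Finsupp.single_apply]
    split_ifs with h
    · rw [h]
    · rw [map_zero]

lemma sg_mul (m n : LG r) (P Q : ℂ[X]) : sg m P * sg n Q = sg (m + n) (P * Q) :=
  AddMonoidAlgebra.single_mul_single _ _ _ _

lemma sg_pow (m : LG r) (P : ℂ[X]) (k : ℕ) : sg m P ^ k = sg (k • m) (P ^ k) :=
  AddMonoidAlgebra.single_pow _ _ _

lemma sg_add (m : LG r) (P Q : ℂ[X]) : sg m (P + Q) = sg m P + sg m Q :=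
  AddMonoidAlgebra.single_add _ _ _

lemma sg_sub (m : LG r) (P Q : ℂ[X]) : sg m (P - Q) = sg m P - sg m Q :=
  AddMonoidAlgebra.single_sub _ _ _

lemma sg_zero (m : LG r) : sg m 0 = 0 := AddMonoidAlgebra.single_zero _

lemma sg_sum {ι : Type} (s : Finset ι) (m : LG r) (P : ι → ℂ[X]) :
    sg m (∑ i ∈ s, P i) = ∑ i ∈ s, sg m (P i) := by
  classical
  induction s using Finset.induction_on with
  | empty => rw [Finset.sum_empty, Finset.sum_empty, sg_zero]
  | insert a s ha ih => rw [Finset.sum_insert ha, Finset.sum_insert ha, sg_add, ih]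

lemma sg_ne_zero {m : LG r} {P : ℂ[X]} : sg m P ≠ 0 ↔ P ≠ 0 :=
  AddMonoidAlgebra.single_ne_zero

lemma smul_sg (c : ℂ) (m : LG r) (P : ℂ[X]) : c • sg m P = sg m (c • P) :=
  AddMonoidAlgebra.smul_single _ _ _

lemma one_eq_sg : (1 : LR r) = sg 0 1 := rfl

lemma sg_coeff (m n : LG r) (P : ℂ[X]) : (sg m P).coeff n = if m = n then P else 0 := by
  rw [AddMonoidAlgebra.coeff_single, Finsupp.single_apply]

lemma sg_coeff_same (m : LG r) (P : ℂ[X]) : (sg m P).coeff m = P := by
  rw [sg_coeff, if_pos rfl]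

/-- The derivation given by a diagonal operator satisfying the Leibniz rule. -/
def diagDer (φ : LG r → (ℂ[X] →ₗ[ℂ] ℂ[X]))
    (h : ∀ m n P Q, φ (m + n) (P * Q) = P * φ n Q + Q * φ m P) : Derivation ℂ (LR r) (LR r) :=
  Derivation.mk' (diag φ) (by
    intro a b
    simp only [smul_eq_mul]
    induction a using AddMonoidAlgebra.induction_linear with
    | zero => simp
    | add x y hx hy => rw [add_mul, map_add, hx, hy, map_add]; ring
    | single m P =>
      induction b using AddMonoidAlgebra.induction_linear with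
      | zero => simp
      | add x y hx hy => rw [mul_add, map_add, hx, hy, map_add]; ring
      | single n Q =>
        change diag φ (sg m P * sg n Q) = sg m P * diag φ (sg n Q) + sg n Q * diag φ (sg m P)
        rw [sg_mul, diag_sg, diag_sg, diag_sg, sg_mul, sg_mul, h, sg_add, add_comm n m])

/-- Differentiation with respect to the variable `z`. -/
def dz : Derivation ℂ (LR r) (LR r) :=
  diagDer (fun _ => Polynomial.derivative) (by
    intro _ _ P Q
    rw [Polynomial.derivative_mul]
    ring)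

lemma dz_sg (n : LG r) (P : ℂ[X]) : dz (sg n P) = sg n (derivative P) := diag_sg _ _ _

lemma dz_coeff (F : LR r) (n : LG r) : (dz F).coeff n = derivative (F.coeff n) :=
  diag_coeff _ _ _

/-- The Euler derivation of an additive character of the lattice. -/
def EE (σ : LG r →+ ℂ) : Derivation ℂ (LR r) (LR r) :=
  diagDer (fun n => σ n • LinearMap.id) (by
    intro m n P Q
    change σ (m + n) • (P * Q) = P * (σ n • Q) + Q * (σ m • P)
    rw [map_add, add_smul, mul_smul_comm, mul_smul_comm, mul_comm Q P, add_comm])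

lemma EE_sg (σ : LG r →+ ℂ) (n : LG r) (P : ℂ[X]) : EE σ (sg n P) = sg n (σ n • P) :=
  diag_sg _ _ _

lemma EE_coeff (σ : LG r →+ ℂ) (F : LR r) (n : LG r) :
    (EE σ F).coeff n = σ n • F.coeff n := diag_coeff _ _ _

/-- The monomial of exponent `n`. -/
abbrev tt (n : LG r) : LR r := sg n 1

lemma tt_mul (m n : LG r) : tt m * tt n = tt (m + n) := by rw [sg_mul, mul_one]

lemma tt_ne_zero (n : LG r) : tt n ≠ 0 := sg_ne_zero.2 one_ne_zero

lemma tt_neg_mul (n : LG r) (F : LR r) : tt (-n) * (tt n * F) = F := by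
  rw [← mul_assoc, tt_mul, neg_add_cancel]
  exact one_mul F

lemma tt_pow (n : LG r) (k : ℕ) : tt n ^ k = tt (k • n) := by rw [sg_pow, one_pow]

lemma tt_prod {ι : Type} (s : Finset ι) (n : ι → LG r) :
    ∏ k ∈ s, tt (n k) = tt (∑ k ∈ s, n k) := by
  classical
  induction s using Finset.induction_on with
  | empty => rw [Finset.prod_empty, Finset.sum_empty]; rfl
  | insert a s ha ih => rw [Finset.prod_insert ha, Finset.sum_insert ha, ih, tt_mul]

variable {I : Type} [Fintype I] {K : Cfg r I}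

/-- The complex valued coordinate characters. -/
def Cfg.cc (K : Cfg r I) (i : I) : LG r →+ ℂ := (Int.castAddHom ℂ).comp (K.co i)

lemma cc_apply (i : I) (n : LG r) : K.cc i n = ((K.co i n : ℤ) : ℂ) := rfl

/-- The complex valued dual basis. -/
def Cfg.xc (K : Cfg r I) (k : Fin r) : LG r →+ ℂ := (Int.castAddHom ℂ).comp (K.xi k)

lemma xc_apply (k : Fin r) (n : LG r) : K.xc k n = ((K.xi k n : ℤ) : ℂ) := rfl

lemma xc_e (k l : Fin r) : K.xc k (K.e l) = if k = l then 1 else 0 := by
  rw [xc_apply, K.xi_e]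
  split_ifs
  · exact Int.cast_one
  · exact Int.cast_zero

lemma tt_mem {n : LG r} (hn : ∀ i, 0 ≤ K.co i n) : tt n ∈ K.A := sg_mem_of_nonneg hn _

lemma zero_mem_sg (P : ℂ[X]) : sg 0 P ∈ K.A := sg_mem_of_nonneg (fun i => by rw [map_zero]) _

/-- Restriction of a derivation of the ambient algebra that preserves the algebra. -/
def restr (D : Derivation ℂ (LR r) (LR r)) (h : ∀ a ∈ K.A, D a ∈ K.A) : VF K.AA :=
  Derivation.mk' (R := ℂ) (A := K.AA) (M := K.AA)
    { toFun := fun a => mkA (D (inc a)) (h _ (inc_mem a))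
      map_add' := fun a b => inc_inj (by
        rw [map_add inc (mkA _ _), inc_mkA, inc_mkA, inc_mkA, map_add, map_add])
      map_smul' := fun c a => inc_inj (by
        rw [RingHom.id_apply, map_smul inc c (mkA _ _), inc_mkA, inc_mkA, map_smul inc c a,
          D.map_smul]) }
    (by
      intro a b
      apply inc_inj
      simp only [smul_eq_mul, map_add inc, map_mul inc]
      change D (inc (a * b)) = inc a * D (inc b) + inc b * D (inc a)
      rw [map_mul, Derivation.leibniz, smul_eq_mul, smul_eq_mul])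

lemma inc_restr (D : Derivation ℂ (LR r) (LR r)) (h : ∀ a ∈ K.A, D a ∈ K.A) (a : K.AA) :
    inc (restr D h a) = D (inc a) := rfl

/-- It is enough to check on homogeneous elements that a derivation preserves the algebra. -/
lemma preserves_of_sg (D : Derivation ℂ (LR r) (LR r))
    (h : ∀ n P, sg n P ∈ K.A → D (sg n P) ∈ K.A) : ∀ a ∈ K.A, D a ∈ K.A := by
  intro a ha
  refine A_induction (p := fun F => D F ∈ K.A) ?_ ?_ h ha
  · rw [map_zero]; exact K.A.zero_mem
  · intro a _ b _ ha hb
    rw [map_add]; exact K.A.add_mem ha hb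

end

end Pool.Agent.KS6_5.FAD
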