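import Pool.Agent.KS6_5.FAD.Fields

/-!
A derivation on the cone algebra is determined by its values on `z` and the basic monomials; every
derivation is the restriction of an explicit derivation of the ambient algebra.
-/

namespace Pool.Agent.KS6_5.FAD

open Polynomial
open Pool.Agent.W485 (VF IsLND IsOvershear IsCompleteField)

noncomputable section

variable {r : ℕ} {I : Type} [Fintype I] {K : Cfg r I}

/-- The element `z`. -/
def zA : K.AA := mkA zz zz_mem

/-- The basic monomials as elements of the algebra. -/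
def Cfg.x (K : Cfg r I) (k : Fin r) : K.AA := mkA (tt (K.e k)) (tt_mem fun i => K.e_nonneg i k)

lemma inc_x (k : Fin r) : inc (K.x k) = tt (K.e k) := rfl

/-- The polynomials in `z`, as elements of the algebra. -/
def pz (P : ℂ[X]) : K.AA := mkA (sg 0 P) (zero_mem_sg P)

lemma inc_pz (P : ℂ[X]) : inc (pz P : K.AA) = sg 0 P := rfl

lemma aeval_zz (P : ℂ[X]) : aeval (zz : LR r) P = sg 0 P := by
  induction P using Polynomial.induction_on' with
  | add p q hp hq => rw [sg_add, map_add, hp, hq]
  | monomial n a =>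
    rw [aeval_monomial]
    have : (zz : LR r) ^ n = sg 0 (X ^ n) := by
      unfold zz
      rw [sg_pow, smul_zero]
    rw [this, AddMonoidAlgebra.coe_algebraMap, Function.comp]
    change sg 0 _ * sg 0 _ = _
    rw [sg_mul, add_zero, ← C_mul_X_pow_eq_monomial]
    rfl

lemma pz_eq (P : ℂ[X]) : (pz P : K.AA) = aeval zA P := by
  apply inc_inj
  rw [← Polynomial.aeval_algHom_apply]
  exact (aeval_zz P).symm

/-- Monomials in the basic monomials. -/
def Cfg.mono (K : Cfg r I) (p : Fin r → ℕ) : K.AA := ∏ k, K.x k ^ p k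

lemma inc_mono (p : Fin r → ℕ) : inc (K.mono p) = tt (∑ k, p k • K.e k) := by
  unfold Cfg.mono
  rw [map_prod, ← tt_prod]
  refine Finset.prod_congr rfl fun k _ => ?_
  rw [map_pow, inc_x, tt_pow]

lemma exponent_decomp (n : LG r) : ∃ p p' : Fin r → ℕ,
    n + ∑ k, p k • K.e k = ∑ k, p' k • K.e k := by
  refine ⟨fun k => (-(K.xi k n)).toNat, fun k => (K.xi k n).toNat, ?_⟩
  refine (congrArg (fun m => m + ∑ k, (-(K.xi k n)).toNat • K.e k) (K.decomp n)).trans ?_
  change ∑ k, K.xi k n • K.e k + ∑ k, (-(K.xi k n)).toNat • K.e k = _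
  rw [← Finset.sum_add_distrib]
  refine Finset.sum_congr rfl fun k _ => ?_
  rw [← natCast_zsmul, ← natCast_zsmul, ← add_smul]
  congr 1
  beta_reduce
  omega

/-- Every homogeneous element times a monomial in the `x`'s is a polynomial in `z` times a
monomial in the `x`'s. -/
lemma red (n : LG r) (P : ℂ[X]) (h : sg n P ∈ K.A) : ∃ p p' : Fin r → ℕ,
    mkA (sg n P) h * K.mono p = pz P * K.mono p' := by
  obtain ⟨p, p', he⟩ := exponent_decomp (K := K) n
  refine ⟨p, p', inc_inj ?_⟩
  rw [map_mul, map_mul, inc_mono, inc_mono, inc_mkA, inc_pz, sg_mul, sg_mul, he, zero_add]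

/-- Uniqueness: a linear map satisfying the Leibniz rule over `φ` and killing `z` and the `x`'s
vanishes, provided `φ` does not kill the `x`'s. -/
lemma leibniz_eq_zero {B : Type} [CommRing B] [IsDomain B] [Algebra ℂ B] (φ : K.AA →ₐ[ℂ] B)
    (d : K.AA →ₗ[ℂ] B) (hd : ∀ f g, d (f * g) = φ f * d g + φ g * d f)
    (hx : ∀ k, φ (K.x k) ≠ 0) (dz : d zA = 0) (dx : ∀ k, d (K.x k) = 0) : d = 0 := by
  have hone : d 1 = 0 := by
    have := hd 1 1
    rw [mul_one, map_one φ, one_mul] at this
    exact left_eq_add.1 this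
  let S : Subalgebra ℂ K.AA :=
    { carrier := {a | d a = 0}
      add_mem' := by
        intro a b (ha : d a = 0) (hb : d b = 0)
        change d (a + b) = 0
        rw [map_add, ha, hb, add_zero]
      mul_mem' := by
        intro a b (ha : d a = 0) (hb : d b = 0)
        change d (a * b) = 0
        rw [hd, ha, hb, mul_zero, mul_zero, add_zero]
      algebraMap_mem' := by
        intro c
        change d (algebraMap ℂ K.AA c) = 0
        rw [Algebra.algebraMap_eq_smul_one, map_smul, hone, smul_zero] }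
  have hS : ∀ a, a ∈ S ↔ d a = 0 := fun a => Iff.rfl
  have hz : (zA : K.AA) ∈ S := dz
  have hm : ∀ p, K.mono p ∈ S := fun p =>
    S.prod_mem fun k _ => S.pow_mem (dx k) _
  have hpz : ∀ P : ℂ[X], (pz P : K.AA) ∈ S := by
    intro P
    rw [pz_eq]
    have h1 : Algebra.adjoin ℂ {(zA : K.AA)} ≤ S := Algebra.adjoin_le (by simpa using hz)
    exact h1 (Polynomial.aeval_mem_adjoin_singleton ℂ zA)
  refine LinearMap.ext fun a => ?_
  change d a = 0
  refine AA_induction (p := fun a => d a = 0) (map_zero d) ?_ ?_ a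
  · intro a b ha hb
    rw [map_add, ha, hb, add_zero]
  · intro n P h
    obtain ⟨p, p', he⟩ := red n P h
    have e1 : d (mkA (sg n P) h * K.mono p) = 0 := by
      rw [he]; exact S.mul_mem (hpz P) (hm _)
    rw [hd, (hS _).1 (hm p), mul_zero, zero_add] at e1
    have e2 : φ (K.mono p) ≠ 0 := by
      unfold Cfg.mono
      rw [map_prod]
      refine Finset.prod_ne_zero_iff.2 fun k _ => ?_
      rw [map_pow]
      exact pow_ne_zero _ (hx k)
    exact (mul_eq_zero.1 e1).resolve_left e2

lemma x_ne_zero (k : Fin r) : K.x k ≠ 0 := fun h => tt_ne_zero (K.e k) (congrArg inc h)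

/-- Two derivations of the algebra agreeing on `z` and the `x`'s are equal. -/
lemma VF_ext {V W : VF K.AA} (hz : V zA = W zA) (hx : ∀ k, V (K.x k) = W (K.x k)) : V = W := by
  have := leibniz_eq_zero (AlgHom.id ℂ K.AA) ((V - W : VF K.AA) : K.AA →ₗ[ℂ] K.AA)
    (by intro f g; exact (V - W).leibniz f g)
    (fun k => x_ne_zero k)
    (by change V zA - W zA = 0; rw [hz, sub_self])
    (by intro k; change V (K.x k) - W (K.x k) = 0; rw [hx, sub_self])
  refine Derivation.ext fun a => ?_
  have h := DFunLike.congr_fun this a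
  change V a - W a = 0 at h
  exact sub_eq_zero.1 h

/-! ### The extension to the ambient algebra -/

/-- The coefficients of a derivation. -/
def cf (V : VF K.AA) : Option (Fin r) → LR r
  | none => inc (V zA)
  | some k => tt (-K.e k) * inc (V (K.x k))

/-- The basic derivations. -/
def Cfg.bd (K : Cfg r I) : Option (Fin r) → Derivation ℂ (LR r) (LR r)
  | none => dz
  | some k => EE (K.xc k)

/-- The extension of a derivation of the algebra to the ambient algebra. -/
def hat (V : VF K.AA) : Derivation ℂ (LR r) (LR r) := ∑ i, cf V i • K.bd i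

lemma der_sum_apply {ι : Type} (s : Finset ι) (D : ι → Derivation ℂ (LR r) (LR r)) (F : LR r) :
    (∑ i ∈ s, D i) F = ∑ i ∈ s, D i F := by
  classical
  induction s using Finset.induction_on with
  | empty => rfl
  | insert a s ha ih =>
    rw [Finset.sum_insert ha, Finset.sum_insert ha, Derivation.add_apply, ih]

lemma hat_eq (V : VF K.AA) (a : LR r) : hat V a = ∑ i, cf V i * K.bd i a := by
  unfold hat
  rw [der_sum_apply]
  rfl

lemma bd_none_zz : K.bd none (zz : LR r) = 1 := by
  change dz (sg 0 X) = 1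
  rw [dz_sg, derivative_X]
  rfl

lemma bd_some_zz (k : Fin r) : K.bd (some k) (zz : LR r) = 0 := by
  change EE (K.xc k) (sg 0 X) = 0
  rw [EE_sg, map_zero, zero_smul, sg_zero]

lemma bd_none_e (l : Fin r) : K.bd none (tt (K.e l)) = 0 := by
  change dz (sg _ 1) = 0
  rw [dz_sg, derivative_one, sg_zero]

lemma bd_some_e (k l : Fin r) : K.bd (some k) (tt (K.e l)) = if k = l then tt (K.e l) else 0 := by
  change EE (K.xc k) (sg _ 1) = _
  rw [EE_sg, xc_e]
  split_ifs
  · rw [one_smul]
  · rw [zero_smul, sg_zero]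

lemma hat_zz (V : VF K.AA) : hat V zz = inc (V zA) := by
  rw [hat_eq, Fintype.sum_option, bd_none_zz, mul_one]
  simp only [bd_some_zz, mul_zero, Finset.sum_const_zero, add_zero]
  rfl

lemma hat_tt (V : VF K.AA) (l : Fin r) : hat V (tt (K.e l)) = inc (V (K.x l)) := by
  rw [hat_eq, Fintype.sum_option, bd_none_e, mul_zero, zero_add]
  simp only [bd_some_e, mul_ite, mul_zero]
  rw [Finset.sum_ite_eq' Finset.univ l, if_pos (Finset.mem_univ l)]
  change tt (-K.e l) * inc (V (K.x l)) * tt (K.e l) = _
  rw [mul_assoc, mul_comm _ (tt (K.e l)), tt_neg_mul]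

lemma hat_inc (V : VF K.AA) (a : K.AA) : hat V (inc a) = inc (V a) := by
  have key := leibniz_eq_zero (inc : K.AA →ₐ[ℂ] LR r)
    ((hat V : LR r →ₗ[ℂ] LR r).comp inc.toLinearMap - inc.toLinearMap.comp (V : K.AA →ₗ[ℂ] K.AA))
    (by
      intro f g
      change hat V (inc (f * g)) - inc (V (f * g)) =
        inc f * (hat V (inc g) - inc (V g)) + inc g * (hat V (inc f) - inc (V f))
      rw [map_mul, Derivation.leibniz, Derivation.leibniz]
      simp only [smul_eq_mul, map_add, map_mul]
      ring)
    (fun k => tt_ne_zero (K.e k))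
    (by
      change hat V zz - inc (V zA) = 0
      rw [hat_zz, sub_self])
    (by
      intro k
      change hat V (tt (K.e k)) - inc (V (K.x k)) = 0
      rw [hat_tt, sub_self])
  have h := DFunLike.congr_fun key a
  change hat V (inc a) - inc (V a) = 0 at h
  exact sub_eq_zero.1 h

end

end Pool.Agent.KS6_5.FAD
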