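import Pool.Agent.KS6_5.FAD.Der

/-!
The basic locally nilpotent derivations of the cone algebra.
-/

namespace Pool.Agent.KS6_5.FAD

open Polynomial
open Pool.Agent.W485 (VF IsLND IsOvershear IsCompleteField)

noncomputable section

variable {r : ℕ} {I : Type} [Fintype I] {K : Cfg r I}

/-- The exponent `2 ∑ e k`. -/
def Cfg.ff (K : Cfg r I) : LG r := 2 • ∑ k, K.e k

lemma co_ff (i : I) : 2 ≤ K.co i K.ff := by
  unfold Cfg.ff
  rw [map_nsmul, map_sum]
  obtain ⟨k, hk⟩ := K.e_pos i
  have h : K.co i (K.e k) ≤ ∑ k, K.co i (K.e k) :=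
    Finset.single_le_sum (f := fun k => K.co i (K.e k)) (fun k _ => K.e_nonneg i k)
      (Finset.mem_univ k)
  rw [nsmul_eq_mul]
  push_cast
  omega

lemma ff_nonneg (i : I) : 0 ≤ K.co i K.ff := le_trans (by norm_num) (co_ff i)

lemma xi_ff (k : Fin r) : K.xi k K.ff = 2 := by
  unfold Cfg.ff
  rw [map_nsmul, map_sum]
  simp only [K.xi_e]
  simp

/-! ### The locally nilpotent derivations -/

/-- The derivation `t^f ∂`. -/
def Cfg.D0R (K : Cfg r I) : Derivation ℂ (LR r) (LR r) := tt K.ff • dz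

lemma D0R_sg (n : LG r) (P : ℂ[X]) : K.D0R (sg n P) = sg (K.ff + n) (derivative P) := by
  unfold Cfg.D0R
  rw [Derivation.smul_apply, dz_sg, smul_eq_mul, sg_mul, one_mul]

/-- The derivation `t^κ (2 (z - y_i) ∂ + E_i)`. -/
def Cfg.DkR (K : Cfg r I) (i : I) : Derivation ℂ (LR r) (LR r) :=
  sg (K.kap i) (2 * K.l i) • dz + tt (K.kap i) • EE (K.cc i)

lemma DkR_sg (i : I) (n : LG r) (P : ℂ[X]) :
    K.DkR i (sg n P) = sg (K.kap i + n) (2 * K.l i * derivative P + K.cc i n • P) := by
  unfold Cfg.DkR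
  rw [Derivation.add_apply, Derivation.smul_apply, Derivation.smul_apply, dz_sg, EE_sg,
    smul_eq_mul, smul_eq_mul, sg_mul, sg_mul, one_mul, sg_add]

lemma derivative_l (i : I) : derivative (K.l i) = 1 := by
  unfold Cfg.l
  rw [derivative_sub, derivative_X, derivative_C, sub_zero]

lemma cw_add_two {k m : ℤ} (h : 2 ≤ m) : cw (m + k) ≤ cw k - 1 := by unfold cw; omega

lemma dvd_derivative {i : I} {c : ℕ} {P : ℂ[X]} (h : K.l i ^ c ∣ P) :
    K.l i ^ (c - 1) ∣ derivative P := by
  obtain ⟨Q, rfl⟩ := h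
  rw [derivative_mul, derivative_pow, derivative_l]
  refine dvd_add ?_ ?_
  · rw [mul_one, mul_right_comm]
    exact Dvd.intro_left _ rfl
  · exact dvd_mul_of_dvd_left (pow_dvd_pow _ (Nat.sub_le _ _)) _

lemma D0R_pres : ∀ a ∈ K.A, K.D0R a ∈ K.A := by
  refine preserves_of_sg _ fun n P h => ?_
  rw [D0R_sg, sg_mem]
  rw [sg_mem] at h
  intro i
  refine dvd_trans (pow_dvd_pow _ ?_) (dvd_derivative (h i))
  rw [map_add]
  exact cw_add_two (co_ff i)

lemma DkR_pres (i : I) : ∀ a ∈ K.A, K.DkR i a ∈ K.A := by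
  refine preserves_of_sg _ fun n P h => ?_
  rw [DkR_sg, sg_mem]
  rw [sg_mem] at h
  intro j
  by_cases hj : j = i
  · subst hj
    rw [map_add, K.kap_self, cc_apply]
    rcases le_or_gt 1 (K.co j n) with h1 | h1
    · rw [cw_nonneg (by omega), pow_zero]
      exact one_dvd _
    · obtain ⟨Q, hQ⟩ := h j
      rw [hQ, derivative_mul, derivative_pow, derivative_l]
      set c := cw (K.co j n) with hc
      rcases Int.even_or_odd (K.co j n) with he | ho
      · have h2 : cw (-1 + K.co j n) = c + 1 := by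
          rw [hc]; unfold cw; obtain ⟨k, hk⟩ := he; omega
        have h3 : ((K.co j n : ℤ) : ℂ) = - (2 * (c : ℂ)) := by
          have : (K.co j n : ℤ) = - (2 * (c : ℤ)) := by
            rw [hc]; unfold cw; obtain ⟨k, hk⟩ := he; omega
          rw [this]; push_cast; ring
        rw [h2, h3]
        rcases Nat.eq_zero_or_pos c with h0 | h0
        · rw [h0]
          simp only [CharP.cast_eq_zero, mul_zero, neg_zero, zero_smul, add_zero, zero_add,
            pow_one, pow_zero, map_zero, zero_mul, one_mul]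
          exact ⟨2 * derivative Q, by ring⟩
        · obtain ⟨d, hd⟩ : ∃ d, c = d + 1 := ⟨c - 1, by omega⟩
          rw [hd, Nat.add_sub_cancel, smul_eq_C_mul]
          refine ⟨2 * derivative Q, ?_⟩
          simp only [Nat.cast_add, Nat.cast_one, map_neg, map_mul, map_add, map_one, map_natCast]
          have : (C (2 : ℂ) : ℂ[X]) = 2 := rfl
          rw [this]
          ring
      · have h2 : cw (-1 + K.co j n) ≤ c := by
          rw [hc]; unfold cw; obtain ⟨k, hk⟩ := ho; omega
        refine dvd_trans (pow_dvd_pow _ h2) ?_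
        refine dvd_add ?_ (dvd_smul_of_dvd _ (Dvd.intro _ rfl))
        rcases Nat.eq_zero_or_pos c with h0 | h0
        · rw [h0, pow_zero]; exact one_dvd _
        · obtain ⟨d, hd⟩ : ∃ d, c = d + 1 := ⟨c - 1, by omega⟩
          rw [hd, Nat.add_sub_cancel]
          exact ⟨2 * (C ((d + 1 : ℕ) : ℂ) * Q + K.l j * derivative Q), by ring⟩
  · have h1 : cw (K.co j (K.kap i + n)) ≤ cw (K.co j n) - 1 := by
      rw [map_add]; exact cw_add_two (K.kap_ne i j hj)
    refine dvd_trans (pow_dvd_pow _ h1) (dvd_add ?_ ?_)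
    · exact dvd_mul_of_dvd_right (dvd_derivative (h j)) _
    · exact dvd_smul_of_dvd _ (dvd_trans (pow_dvd_pow _ (Nat.sub_le _ _)) (h j))

lemma EE_pres (σ : LG r →+ ℂ) : ∀ a ∈ K.A, EE σ a ∈ K.A := by
  refine preserves_of_sg _ fun n P h => ?_
  rw [EE_sg, sg_mem]
  rw [sg_mem] at h
  exact fun i => dvd_smul_of_dvd _ (h i)

/-- The Euler derivations on the algebra. -/
def EA (σ : LG r →+ ℂ) : VF K.AA := restr (EE σ) (EE_pres σ)

/-- The derivation `t^f ∂` on the algebra. -/
def Cfg.D0 (K : Cfg r I) : VF K.AA := restr K.D0R D0R_pres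

/-- The derivation `t^κ (2 (z - y_i) ∂ + E_i)` on the algebra. -/
def Cfg.Dk (K : Cfg r I) (i : I) : VF K.AA := restr (K.DkR i) (DkR_pres i)

lemma inc_D0 (a : K.AA) : inc (K.D0 a) = K.D0R (inc a) := rfl

lemma inc_Dk (i : I) (a : K.AA) : inc (K.Dk i a) = K.DkR i (inc a) := rfl

lemma inc_iterate (D : Derivation ℂ (LR r) (LR r)) (h : ∀ a ∈ K.A, D a ∈ K.A) (k : ℕ)
    (a : K.AA) : inc ((⇑(restr D h))^[k] a) = (⇑D)^[k] (inc a) := by
  induction k generalizing a with
  | zero => rfl
  | succ k ih => rw [Function.iterate_succ_apply, ih, Function.iterate_succ_apply, inc_restr]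

lemma iterate_zero_of_le (D : Derivation ℂ (LR r) (LR r)) {k m : ℕ} (hkm : k ≤ m) {F : LR r}
    (h : (⇑D)^[k] F = 0) : (⇑D)^[m] F = 0 := by
  obtain ⟨d, rfl⟩ := Nat.exists_eq_add_of_le hkm
  rw [add_comm, Function.iterate_add_apply, h]
  induction d with
  | zero => rfl
  | succ d ih => rw [Function.iterate_succ_apply, map_zero]; exact ih (by omega)

lemma iterate_add_der (D : Derivation ℂ (LR r) (LR r)) (k : ℕ) (F H : LR r) :
    (⇑D)^[k] (F + H) = (⇑D)^[k] F + (⇑D)^[k] H := by
  induction k generalizing F H with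
  | zero => rfl
  | succ k ih => rw [Function.iterate_succ_apply, map_add, ih]; rfl

lemma isLND_restr (D : Derivation ℂ (LR r) (LR r)) (h : ∀ a ∈ K.A, D a ∈ K.A)
    (hn : ∀ n P, sg n P ∈ K.A → ∃ k : ℕ, (⇑D)^[k] (sg n P) = 0) : IsLND (restr D h) := by
  have key : ∀ F ∈ K.A, ∃ k : ℕ, (⇑D)^[k] F = 0 := by
    intro F hF
    refine A_induction (p := fun F => ∃ k : ℕ, (⇑D)^[k] F = 0) ⟨0, rfl⟩ ?_ hn hF
    rintro a - b - ⟨k, hk⟩ ⟨m, hm⟩
    refine ⟨max k m, ?_⟩
    rw [iterate_add_der, iterate_zero_of_le D (le_max_left k m) hk,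
      iterate_zero_of_le D (le_max_right k m) hm, add_zero]
  intro f
  obtain ⟨k, hk⟩ := key (inc f) (inc_mem f)
  refine ⟨k, inc_inj ?_⟩
  rw [inc_iterate, hk, map_zero]

lemma D0_lnd : IsLND K.D0 := by
  refine isLND_restr _ _ ?_
  have key : ∀ (k : ℕ) (n : LG r) (P : ℂ[X]), P.natDegree < k → (⇑K.D0R)^[k] (sg n P) = 0 := by
    intro k
    induction k with
    | zero => intro n P h; omega
    | succ k ih =>
      intro n P h
      rw [Function.iterate_succ_apply, D0R_sg]
      by_cases h0 : P.natDegree = 0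
      · rw [natDegree_eq_zero] at h0
        obtain ⟨c, rfl⟩ := h0
        rw [derivative_C, sg_zero]
        exact iterate_zero_of_le K.D0R (Nat.zero_le k) rfl
      · exact ih _ _ (lt_of_le_of_lt (natDegree_derivative_le P) (by omega))
  intro n P _
  exact ⟨P.natDegree + 1, key _ n P (Nat.lt_succ_self _)⟩

lemma natDegree_l (i : I) : (K.l i).natDegree = 1 := natDegree_X_sub_C _

lemma l_ne_zero (i : I) : K.l i ≠ 0 := X_sub_C_ne_zero _

lemma l_monic (i : I) : (K.l i).Monic := monic_X_sub_C _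

lemma Dk_lnd (i : I) : IsLND (K.Dk i) := by
  refine isLND_restr _ _ ?_
  have key : ∀ (k : ℕ) (n : LG r) (P : ℂ[X]), sg n P ∈ K.A →
      (P = 0 ∨ 2 * (P.natDegree : ℤ) + K.co i n < k) → (⇑(K.DkR i))^[k] (sg n P) = 0 := by
    intro k
    induction k with
    | zero =>
      intro n P hP h
      rcases h with h | h
      · rw [h, sg_zero]; rfl
      · by_cases hP0 : P = 0
        · rw [hP0, sg_zero]; rfl
        · exfalso
          rw [sg_mem] at hP
          have h1 := natDegree_le_of_dvd (hP i) hP0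
          rw [(l_monic i).natDegree_pow, natDegree_l, mul_one] at h1
          unfold cw at h1
          push_cast at h
          omega
    | succ k ih =>
      intro n P hP h
      rw [Function.iterate_succ_apply]
      have hmem := DkR_pres i _ hP
      rw [DkR_sg] at hmem ⊢
      refine ih _ _ hmem ?_
      rcases h with h | h
      · left; rw [h]; simp
      · right
        rw [map_add, K.kap_self]
        have h1 : (2 * K.l i * derivative P + K.cc i n • P).natDegree ≤ P.natDegree := by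
          refine (natDegree_add_le _ _).trans (max_le ?_ (natDegree_smul_le _ _))
          by_cases h0 : P.natDegree = 0
          · rw [natDegree_eq_zero] at h0
            obtain ⟨c, rfl⟩ := h0
            rw [derivative_C, mul_zero, natDegree_zero]; exact Nat.zero_le _
          · refine natDegree_mul_le.trans ?_
            have h2 := natDegree_derivative_le P
            have h3 : (2 * K.l i).natDegree ≤ 1 := by
              refine natDegree_mul_le.trans ?_
              rw [natDegree_l]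
              have : (2 : ℂ[X]).natDegree = 0 := natDegree_ofNat 2
              omega
            omega
        push_cast at h
        omega
  intro n P hP
  refine ⟨(2 * (P.natDegree : ℤ) + K.co i n + 1).toNat, key _ n P hP (Or.inr ?_)⟩
  omega

/-! ### Values -/

lemma EA_sg (σ : LG r →+ ℂ) (n : LG r) (P : ℂ[X]) (h : sg n P ∈ K.A) :
    EA σ (mkA (sg n P) h) = σ n • mkA (sg n P) h := by
  apply inc_inj
  rw [map_smul]
  change EE σ (sg n P) = σ n • sg n P
  rw [EE_sg, smul_sg]

lemma D0_tt (n : LG r) (h : tt n ∈ K.A) : K.D0 (mkA (tt n) h) = 0 := by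
  apply inc_inj
  change K.D0R (sg n 1) = inc 0
  rw [D0R_sg, derivative_one, sg_zero, map_zero]

lemma Dk_tt (i : I) (n : LG r) (h : tt n ∈ K.A) (h' : tt (K.kap i + n) ∈ K.A) :
    K.Dk i (mkA (tt n) h) = K.cc i n • mkA (tt (K.kap i + n)) h' := by
  apply inc_inj
  rw [map_smul]
  change K.DkR i (sg n 1) = K.cc i n • sg (K.kap i + n) 1
  rw [DkR_sg, derivative_one, mul_zero, zero_add, smul_sg]

lemma Dk_tt_zero (i : I) (n : LG r) (h : tt n ∈ K.A) (hi : K.co i n = 0) :
    K.Dk i (mkA (tt n) h) = 0 := by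
  apply inc_inj
  change K.DkR i (sg n 1) = inc 0
  rw [DkR_sg, derivative_one, mul_zero, zero_add, cc_apply, hi, Int.cast_zero, zero_smul, sg_zero,
    map_zero]

end

end Pool.Agent.KS6_5.FAD
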