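import Pool.Agent.KS6_5.FAD.AD
import Pool.Graph.R_pool_sql_team_seeded_f72693b1.W108.OVS.Exp

/-!
The cone algebra is flexible, and all its tangent spaces have dimension `r + 1`.
-/

namespace Pool.Agent.KS6_5.FAD

open Polynomial
open Pool.Agent.W485 (VF IsLND IsOvershear IsCompleteField tangentSpace Flexible)
open Pool.Agent.W108.OVS (vals vals_move ex exE ex_of_two)

noncomputable section

variable {r : ℕ} {I : Type} [Fintype I] {K : Cfg r I}

/-! ### Generic points -/

lemma x_tt_ne (x : K.AA →ₐ[ℂ] ℂ) (hx : ∀ k, x (K.x k) ≠ 0) (n : LG r) (h : tt n ∈ K.A) :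
    x (mkA (tt n) h) ≠ 0 := by
  intro h0
  obtain ⟨p, p', he⟩ := red n 1 h
  have e1 := congrArg x he
  have h1 : (pz 1 : K.AA) = 1 := rfl
  rw [map_mul, h0, zero_mul, h1, one_mul] at e1
  unfold Cfg.mono at e1
  rw [map_prod] at e1
  refine Finset.prod_ne_zero_iff.2 (fun k _ => ?_) e1.symm
  rw [map_pow]
  exact pow_ne_zero _ (hx k)

lemma kg_nonneg (i : I) (j : I) : 0 ≤ K.co j (K.kap i + K.gg i) := by
  rw [map_add]
  by_cases h : j = i
  · subst h
    rw [K.kap_self, K.gg_self]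
    norm_num
  · have h1 := K.kap_ne i j h
    have h2 := K.gg_pos i j
    omega

/-- The monomial `t ^ g_i`. -/
def Cfg.tg (K : Cfg r I) (i : I) : K.AA := mkA (tt (K.gg i)) (tt_gg_mem i)

/-- The monomial `t ^ (κ_i + g_i)`. -/
def Cfg.tk (K : Cfg r I) (i : I) : K.AA := mkA (tt (K.kap i + K.gg i)) (tt_mem (kg_nonneg i))

lemma Dk_mul (i : I) (n : LG r) (h : tt n ∈ K.A) :
    K.Dk i (mkA (tt n) h) * K.tg i = K.cc i n • (K.tk i * mkA (tt n) h) := by
  apply inc_inj
  rw [map_mul, map_smul, map_mul]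
  change K.DkR i (sg n 1) * sg (K.gg i) 1 = K.cc i n • (sg (K.kap i + K.gg i) 1 * sg n 1)
  rw [DkR_sg, derivative_one, mul_zero, zero_add, sg_mul, sg_mul, smul_sg, mul_one, mul_one]
  congr 1
  abel

lemma D_mem_tangent (x : K.AA →ₐ[ℂ] ℂ) (D : VF K.AA) :
    x.toLinearMap.comp (D : K.AA →ₗ[ℂ] K.AA) ∈ tangentSpace x := by
  intro f g
  change x (D (f * g)) = x f * x (D g) + x g * x (D f)
  rw [Derivation.leibniz]
  simp only [smul_eq_mul, map_add, map_mul]

lemma lin_sum_apply {ι : Type} (s : Finset ι) (f : ι → (K.AA →ₗ[ℂ] ℂ)) (a : K.AA) :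
    (∑ i ∈ s, f i) a = ∑ i ∈ s, f i a := by
  rw [LinearMap.sum_apply]

lemma generic (x : K.AA →ₐ[ℂ] ℂ) (hx : ∀ k, x (K.x k) ≠ 0) : tangentSpace x ≤ vals x := by
  classical
  intro δ hδ
  have htg : ∀ i, x (K.tg i) ≠ 0 := fun i => x_tt_ne x hx _ _
  have htk : ∀ i, x (K.tk i) ≠ 0 := fun i => x_tt_ne x hx _ _
  have ha0 : x a0 ≠ 0 := x_tt_ne x hx _ _
  -- the coefficients
  let τ : I → ℂ := fun i => x (K.tk i) / x (K.tg i)
  have hτ : ∀ i, τ i ≠ 0 := fun i => div_ne_zero (htk i) (htg i)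
  have hDk : ∀ i k, x (K.Dk i (K.x k)) = τ i * K.cc i (K.e k) * x (K.x k) := by
    intro i k
    have h1 := congrArg x (Dk_mul i (K.e k) (tt_mem fun j => K.e_nonneg j k))
    rw [map_mul, map_smul, map_mul, smul_eq_mul] at h1
    change x (K.Dk i (K.x k)) * x (K.tg i) = K.cc i (K.e k) * (x (K.tk i) * x (K.x k)) at h1
    change _ = x (K.tk i) / x (K.tg i) * K.cc i (K.e k) * x (K.x k)
    have := htg i
    field_simp
    rw [h1]
    ring
  choose c hc using K.spn
  let lam : Fin r → ℂ := fun k => δ (K.x k) / x (K.x k)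
  let al : I → ℂ := fun i => (∑ k, lam k * c k i) / τ i
  have hal : ∀ l, ∑ i, al i * x (K.Dk i (K.x l)) = δ (K.x l) := by
    intro l
    have h1 : ∀ i ∈ Finset.univ, al i * x (K.Dk i (K.x l)) =
        ∑ k, lam k * (c k i * K.cc i (K.e l)) * x (K.x l) := by
      intro i _
      rw [hDk]
      change (∑ k, lam k * c k i) / τ i * (τ i * K.cc i (K.e l) * x (K.x l)) = _
      have := hτ i
      rw [← Finset.sum_mul]
      have h2 : ∑ k, lam k * (c k i * K.cc i (K.e l)) = (∑ k, lam k * c k i) * K.cc i (K.e l) := by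
        rw [Finset.sum_mul]
        exact Finset.sum_congr rfl fun k _ => by ring
      rw [h2]
      field_simp
    rw [Finset.sum_congr rfl h1, Finset.sum_comm]
    have h3 : ∀ k ∈ Finset.univ, ∑ i, lam k * (c k i * K.cc i (K.e l)) * x (K.x l) =
        if k = l then lam k * x (K.x l) else 0 := by
      intro k _
      rw [← Finset.sum_mul, ← Finset.mul_sum]
      have h4 : ∑ i, c k i * K.cc i (K.e l) = K.xc k (K.e l) := (hc k (K.e l)).symm
      rw [h4, xc_e]
      split_ifs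
      · rw [mul_one]
      · rw [mul_zero, zero_mul]
    rw [Finset.sum_congr rfl h3, Finset.sum_ite_eq' Finset.univ l, if_pos (Finset.mem_univ l)]
    change δ (K.x l) / x (K.x l) * x (K.x l) = _
    exact div_mul_cancel₀ _ (hx l)
  let v0 : K.AA →ₗ[ℂ] ℂ := x.toLinearMap.comp (K.D0 : K.AA →ₗ[ℂ] K.AA)
  let wi : I → (K.AA →ₗ[ℂ] ℂ) := fun i => x.toLinearMap.comp (K.Dk i : K.AA →ₗ[ℂ] K.AA)
  let ε : ℂ := (δ zA - ∑ i, al i * x (K.Dk i zA)) / x a0
  have key : δ - (ε • v0 + ∑ i, al i • wi i) = 0 := by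
    have hmem : δ - (ε • v0 + ∑ i, al i • wi i) ∈ tangentSpace x :=
      Submodule.sub_mem _ hδ (Submodule.add_mem _ (Submodule.smul_mem _ _ (D_mem_tangent x _))
        (Submodule.sum_mem _ fun i _ => Submodule.smul_mem _ _ (D_mem_tangent x _)))
    refine leibniz_eq_zero x _ hmem hx ?_ ?_
    · rw [LinearMap.sub_apply, LinearMap.add_apply, lin_sum_apply]
      change δ zA - (ε * x (K.D0 zA) + ∑ i, al i * x (K.Dk i zA)) = 0
      rw [D0_zA]
      change δ zA - ((δ zA - ∑ i, al i * x (K.Dk i zA)) / x a0 * x a0 +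
        ∑ i, al i * x (K.Dk i zA)) = 0
      rw [div_mul_cancel₀ _ ha0]
      ring
    · intro k
      rw [LinearMap.sub_apply, LinearMap.add_apply, lin_sum_apply]
      change δ (K.x k) - (ε * x (K.D0 (K.x k)) + ∑ i, al i * x (K.Dk i (K.x k))) = 0
      rw [D0_x, map_zero, mul_zero, zero_add, hal, sub_self]
  rw [sub_eq_zero] at key
  rw [key]
  exact Submodule.add_mem _
    (Submodule.smul_mem _ _ (Submodule.subset_span ⟨K.D0, D0_lnd, rfl⟩))
    (Submodule.sum_mem _ fun i _ =>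
      Submodule.smul_mem _ _ (Submodule.subset_span ⟨K.Dk i, Dk_lnd i, rfl⟩))

/-! ### Arbitrary points -/

lemma x_pz (x : K.AA →ₐ[ℂ] ℂ) (P : ℂ[X]) : x (pz P) = P.eval (x zA) := by
  rw [pz_eq, ← Polynomial.aeval_algHom_apply, Polynomial.coe_aeval_eq_eval]

lemma W_eval (n : LG r) (c : ℂ) : (K.W n).eval c = ∏ i, (c - K.y i) ^ cw (K.co i n) := by
  unfold Cfg.W
  rw [eval_prod]
  refine Finset.prod_congr rfl fun i _ => ?_
  rw [eval_pow]
  unfold Cfg.l
  rw [eval_sub, eval_X, eval_C]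

/-- A point at which `t ^ g_i` does not vanish is generic. -/
lemma gen_of_tg (x : K.AA →ₐ[ℂ] ℂ) (i : I) (h : x (K.tg i) ≠ 0) (k : Fin r) :
    x (K.x k) ≠ 0 := by
  intro h0
  let M : ℕ := ∑ j, (K.co j (K.e k)).toNat
  have hM : ∀ j, 0 ≤ K.co j (M • K.gg i + -K.e k) := by
    intro j
    have h1 : (K.co j (K.e k)).toNat ≤ M :=
      Finset.single_le_sum (f := fun j => (K.co j (K.e k)).toNat) (fun _ _ => Nat.zero_le _)
        (Finset.mem_univ j)
    have h2 := K.gg_pos i j
    rw [map_add, map_neg, map_nsmul, nsmul_eq_mul]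
    have h3 : (M : ℤ) ≤ M * K.co j (K.gg i) := le_mul_of_one_le_right (by omega) (by omega)
    omega
  have e : K.tg i ^ M = K.x k * mkA (tt (M • K.gg i + -K.e k)) (tt_mem hM) := by
    apply inc_inj
    rw [map_mul, map_pow]
    change tt (K.gg i) ^ M = tt (K.e k) * tt (M • K.gg i + -K.e k)
    rw [tt_pow, tt_mul]
    congr 1
    abel
  have e1 := congrArg x e
  rw [map_mul, h0, zero_mul, map_pow] at e1
  exact pow_ne_zero _ h e1

/-- Every point is moved to a generic point by an automorphism. -/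
lemma exists_generic (x : K.AA →ₐ[ℂ] ℂ) : ∃ φ : K.AA ≃ₐ[ℂ] K.AA,
    ∀ k, (x.comp φ.toAlgHom) (K.x k) ≠ 0 := by
  by_cases hx : ∀ k, x (K.x k) ≠ 0
  · exact ⟨AlgEquiv.refl, hx⟩
  have htg : ∀ i, x (K.tg i) = 0 := by
    intro i
    by_contra h
    exact hx (gen_of_tg x i h)
  obtain ⟨i0⟩ := K.ne
  -- the point lies over some `y i`
  obtain ⟨i, hi⟩ : ∃ i, x zA = K.y i := by
    have h1 := congrArg x (W_neg_eq (K := K) (n := K.gg i0) fun j => (K.gg_pos i0 j).le)
    have h2 : x (mkA (tt (K.gg i0)) (tt_mem fun j => (K.gg_pos i0 j).le)) = 0 := htg i0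
    rw [map_mul, h2, mul_zero, x_pz, W_eval, Finset.prod_eq_zero_iff] at h1
    obtain ⟨i, -, hi⟩ := h1
    refine ⟨i, ?_⟩
    by_contra hne
    exact pow_ne_zero _ (sub_ne_zero.2 hne) hi
  have htk : x (K.tk i) ≠ 0 := by
    intro h0
    have h1 := congrArg x (W_neg_eq (K := K) (kg_nonneg i))
    have h2 : x (mkA (tt (K.kap i + K.gg i)) (tt_mem (kg_nonneg i))) = 0 := h0
    rw [map_mul, h2, mul_zero, x_pz, W_eval, Finset.prod_eq_zero_iff, hi] at h1
    obtain ⟨j, -, hj⟩ := h1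
    by_cases hji : j = i
    · subst hji
      rw [map_neg, map_add, K.kap_self, K.gg_self] at hj
      have : cw (-(-1 + 1)) = 0 := rfl
      rw [this, pow_zero] at hj
      exact one_ne_zero hj
    · exact pow_ne_zero _ (sub_ne_zero.2 fun h => hji (K.y_inj h.symm)) hj
  have e0 : K.Dk i (K.tg i) = K.tk i := by
    have h1 := Dk_tt i (K.gg i) (tt_gg_mem i) (tt_mem (kg_nonneg i))
    rw [cc_apply, K.gg_self, Int.cast_one, one_smul] at h1
    exact h1
  have e1 : K.Dk i (K.Dk i (K.tg i)) = 0 := by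
    rw [e0]
    exact Dk_tt_zero i _ _ (by rw [map_add, K.kap_self, K.gg_self]; norm_num)
  refine ⟨exE (K.Dk i) (Dk_lnd i) 1, gen_of_tg _ i ?_⟩
  change x (ex (K.Dk i) (Dk_lnd i) 1 (K.tg i)) ≠ 0
  rw [ex_of_two _ _ _ _ e1, one_smul, e0, map_add, htg i, zero_add]
  exact htk

/-- The cone algebra is flexible. -/
theorem flexible (K : Cfg r I) : Flexible K.AA := by
  intro x
  change tangentSpace x ≤ vals x
  obtain ⟨φ, hφ⟩ := exists_generic x
  exact vals_move φ x (generic _ hφ)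

/-! ### The dimension of the tangent spaces -/

lemma finrank_generic (x : K.AA →ₐ[ℂ] ℂ) (hx : ∀ k, x (K.x k) ≠ 0) :
    Module.finrank ℂ (tangentSpace x) = r + 1 := by
  classical
  let f : tangentSpace x →ₗ[ℂ] (Option (Fin r) → ℂ) :=
    { toFun := fun δ i => match i with
        | none => δ.1 zA
        | some k => δ.1 (K.x k)
      map_add' := by
        intro a b
        funext i
        cases i <;> rfl
      map_smul' := by
        intro c a
        funext i
        cases i <;> rfl }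
  have hf : ∀ (δ : tangentSpace x), f δ none = δ.1 zA := fun _ => rfl
  have hf' : ∀ (δ : tangentSpace x) k, f δ (some k) = δ.1 (K.x k) := fun _ _ => rfl
  have hinj : Function.Injective f := by
    rw [injective_iff_map_eq_zero]
    intro δ h
    apply Subtype.ext
    refine leibniz_eq_zero x δ.1 δ.2 hx ?_ ?_
    · rw [← hf, h]; rfl
    · intro k
      rw [← hf', h]; rfl
  have hsurj : Function.Surjective f := by
    intro v
    have ha0 : x a0 ≠ 0 := x_tt_ne x hx _ _
    refine ⟨⟨(v none / x a0) • x.toLinearMap.comp (K.D0 : K.AA →ₗ[ℂ] K.AA) +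
      ∑ k, (v (some k) / x (K.x k)) •
        x.toLinearMap.comp ((EA (K.xc k) : VF K.AA) : K.AA →ₗ[ℂ] K.AA),
      Submodule.add_mem _ (Submodule.smul_mem _ _ (D_mem_tangent x _))
        (Submodule.sum_mem _ fun i _ => Submodule.smul_mem _ _ (D_mem_tangent x _))⟩, ?_⟩
    funext i
    cases i with
    | none =>
      rw [hf, LinearMap.add_apply, lin_sum_apply]
      have h1 : ∀ k ∈ Finset.univ, ((v (some k) / x (K.x k)) •
          x.toLinearMap.comp ((EA (K.xc k) : VF K.AA) : K.AA →ₗ[ℂ] K.AA)) zA = 0 := by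
        intro k _
        change (v (some k) / x (K.x k)) * x (EA (K.xc k) zA) = 0
        rw [EA_zA, map_zero, mul_zero]
      rw [Finset.sum_eq_zero h1, add_zero]
      change v none / x a0 * x (K.D0 zA) = _
      rw [D0_zA, div_mul_cancel₀ _ ha0]
    | some l =>
      rw [hf', LinearMap.add_apply, lin_sum_apply]
      have h1 : ∀ k ∈ Finset.univ, ((v (some k) / x (K.x k)) •
          x.toLinearMap.comp ((EA (K.xc k) : VF K.AA) : K.AA →ₗ[ℂ] K.AA)) (K.x l) =
          if k = l then v (some l) else 0 := by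
        intro k _
        change (v (some k) / x (K.x k)) * x (EA (K.xc k) (K.x l)) = _
        rw [EA_x]
        split_ifs with h
        · subst h
          exact div_mul_cancel₀ _ (hx k)
        · rw [map_zero, mul_zero]
      rw [Finset.sum_congr rfl h1, Finset.sum_ite_eq' Finset.univ l, if_pos (Finset.mem_univ l)]
      change v none / x a0 * x (K.D0 (K.x l)) + _ = _
      rw [D0_x, map_zero, mul_zero, zero_add]
  rw [(LinearEquiv.ofBijective f ⟨hinj, hsurj⟩).finrank_eq, Module.finrank_fintype_fun_eq_card,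
    Fintype.card_option, Fintype.card_fin]

/-- Automorphisms identify tangent spaces. -/
def tangentEquiv {B : Type} [CommRing B] [Algebra ℂ B] (φ : B ≃ₐ[ℂ] B) (x : B →ₐ[ℂ] ℂ) :
    tangentSpace x ≃ₗ[ℂ] tangentSpace (x.comp φ.toAlgHom) where
  toFun δ := ⟨δ.1.comp φ.toLinearMap, by
    intro f g
    change δ.1 (φ (f * g)) = x (φ f) * δ.1 (φ g) + x (φ g) * δ.1 (φ f)
    rw [map_mul]
    exact δ.2 _ _⟩
  map_add' a b := rfl
  map_smul' c a := rfl
  invFun δ := ⟨δ.1.comp φ.symm.toLinearMap, by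
    intro f g
    change δ.1 (φ.symm (f * g)) = x f * δ.1 (φ.symm g) + x g * δ.1 (φ.symm f)
    have h := δ.2 (φ.symm f) (φ.symm g)
    change δ.1 (φ.symm f * φ.symm g) = x (φ (φ.symm f)) * δ.1 (φ.symm g) +
      x (φ (φ.symm g)) * δ.1 (φ.symm f) at h
    rw [φ.apply_symm_apply, φ.apply_symm_apply] at h
    rw [map_mul]
    exact h⟩
  left_inv δ := by
    apply Subtype.ext
    refine LinearMap.ext fun f => ?_
    change δ.1 (φ (φ.symm f)) = δ.1 f
    rw [φ.apply_symm_apply]
  right_inv δ := by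
    apply Subtype.ext
    refine LinearMap.ext fun f => ?_
    change δ.1 (φ.symm (φ f)) = δ.1 f
    rw [φ.symm_apply_apply]

/-- All tangent spaces have dimension `r + 1`. -/
theorem finrank_tangentSpace (x : K.AA →ₐ[ℂ] ℂ) :
    Module.finrank ℂ (tangentSpace x) = r + 1 := by
  obtain ⟨φ, hφ⟩ := exists_generic x
  rw [(tangentEquiv φ x).finrank_eq]
  exact finrank_generic _ hφ

end

end Pool.Agent.KS6_5.FAD
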