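import Mathlib

/-!
Laurent polynomial rings in several variables are smooth.
-/

namespace Pool.Agent.KS6_5.FAD

noncomputable section

lemma hom_ext_of_single {r : ℕ} {M : Type} [CommGroup M]
    (φ ψ : Multiplicative (Fin r → ℤ) →* M)
    (h : ∀ i, φ (.ofAdd (Pi.single i 1)) = ψ (.ofAdd (Pi.single i 1))) : φ = ψ := by
  refine MonoidHom.ext fun n => ?_
  have hn : n = ∏ i, (Multiplicative.ofAdd (Pi.single i 1 : Fin r → ℤ)) ^ (n.toAdd i) := by
    apply Multiplicative.toAdd.injective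
    rw [toAdd_prod]
    simp only [toAdd_zpow, toAdd_ofAdd]
    funext j
    rw [Finset.sum_apply]
    simp [Pi.single_apply]
  rw [hn, map_prod, map_prod]
  refine Finset.prod_congr rfl fun i _ => ?_
  rw [map_zpow, map_zpow, h]

theorem formallySmooth_laurent (k : Type) [CommRing k] (r : ℕ) :
    Algebra.FormallySmooth k (AddMonoidAlgebra k (Fin r → ℤ)) := by
  refine .of_comp_surjective fun B _ _ J hJ f => ?_
  have hnil : IsNilpotent J := ⟨2, hJ⟩
  let F : Multiplicative (Fin r → ℤ) →* (B ⧸ J)ˣ :=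
    MonoidHom.toHomUnits ((AddMonoidAlgebra.lift k (B ⧸ J) (Fin r → ℤ)).symm f)
  have hu : ∀ i, ∃ u : Bˣ, Ideal.Quotient.mk J u = (F (.ofAdd (Pi.single i 1)) : B ⧸ J) := by
    intro i
    obtain ⟨b, hb⟩ := Ideal.Quotient.mk_surjective
      ((F (.ofAdd (Pi.single i 1)) : (B ⧸ J)ˣ) : B ⧸ J)
    have h1 : IsUnit b := (hnil.isUnit_quotient_mk_iff).1 (by rw [hb]; exact Units.isUnit _)
    obtain ⟨u, rfl⟩ := h1
    exact ⟨u, hb⟩
  choose u hu using hu
  let H : Multiplicative (Fin r → ℤ) →* Bˣ :=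
    { toFun := fun n => ∏ i, u i ^ (n.toAdd i)
      map_one' := by simp
      map_mul' := by intro a b; simp [zpow_add, Finset.prod_mul_distrib] }
  have hH : (Units.map (Ideal.Quotient.mk J : B →* B ⧸ J)).comp H = F := by
    refine hom_ext_of_single _ _ fun i => ?_
    apply Units.ext
    rw [← hu i]
    change Ideal.Quotient.mk J ((∏ j, u j ^ ((Pi.single i 1 : Fin r → ℤ) j) : Bˣ) : B) = _
    congr 2
    rw [Finset.prod_eq_single i]
    · rw [Pi.single_eq_same, zpow_one]
    · intro j _ hj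
      rw [Pi.single_eq_of_ne hj, zpow_zero]
    · intro h
      exact absurd (Finset.mem_univ i) h
  refine ⟨AddMonoidAlgebra.lift k B _ ((Units.coeHom B).comp H), ?_⟩
  apply (AddMonoidAlgebra.lift k (B ⧸ J) (Fin r → ℤ)).symm.injective
  refine MonoidHom.ext fun n => ?_
  change Ideal.Quotient.mk J (AddMonoidAlgebra.lift k B _ ((Units.coeHom B).comp H)
    (AddMonoidAlgebra.single n.toAdd 1)) = _
  rw [AddMonoidAlgebra.lift_single, one_smul]
  have h1 := congrArg (fun g : Multiplicative (Fin r → ℤ) →* (B ⧸ J)ˣ => ((g n : (B ⧸ J)ˣ) : B ⧸ J))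
    hH
  exact h1

theorem smooth_laurent (k : Type) [CommRing k] [IsNoetherianRing k] (r : ℕ) :
    Algebra.Smooth k (AddMonoidAlgebra k (Fin r → ℤ)) := by
  have h1 : AddMonoid.FG (Fin r → ℤ) := by
    rw [← AddGroup.fg_iff_addMonoid_fg]
    exact Module.Finite.iff_addGroup_fg.1 inferInstance
  have h2 : Algebra.FiniteType k (AddMonoidAlgebra k (Fin r → ℤ)) := inferInstance
  exact ⟨formallySmooth_laurent k r, Algebra.FinitePresentation.of_finiteType.1 h2⟩

end

end Pool.Agent.KS6_5.FAD
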