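import Pool.Agent.KS6_5.FAD.NotHom

/-!
The leading component of a derivation, and the failure of the overshear density property.
-/

namespace Pool.Agent.KS6_5.FAD

open Polynomial
open Pool.Agent.W485 (VF IsLND IsOvershear IsCompleteField OvershearDensity)

noncomputable section

variable {r : ℕ} {I : Type} [Fintype I] {K : Cfg r I}

/-- The order on the lattice: the weight dominates, then lexicographic. -/
def Cfg.key (K : Cfg r I) (n : LG r) : ℤ ×ₗ Lex (Fin r → ℤ) := toLex (K.w n, toLex n)

lemma key_add (m n : LG r) : K.key (m + n) = K.key m + K.key n := by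
  unfold Cfg.key
  rw [map_add]
  rfl

lemma key_inj : Function.Injective K.key := by
  intro m n h
  have h1 : (K.w m, toLex m) = (K.w n, toLex n) := toLex.injective h
  exact toLex.injective (congrArg Prod.snd h1)

lemma key_fst {m n : LG r} (h : K.key m ≤ K.key n) : K.w m ≤ K.w n := by
  rcases (Prod.Lex.le_iff.1 h) with h | h
  · exact h.le
  · exact h.1.le

/-- All exponents of `a` are at least `m`. -/
def Cfg.Lo (K : Cfg r I) (m : LG r) (a : LR r) : Prop := ∀ k, a.coeff k ≠ 0 → K.key m ≤ K.key k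

lemma Lo.add {m : LG r} {a b : LR r} (ha : K.Lo m a) (hb : K.Lo m b) : K.Lo m (a + b) := by
  intro k hk
  rw [AddMonoidAlgebra.coeff_add, Finsupp.add_apply] at hk
  by_cases h : a.coeff k = 0
  · rw [h, zero_add] at hk; exact hb k hk
  · exact ha k h

lemma Lo_zero (m : LG r) : K.Lo m 0 := by
  intro k hk
  exact absurd rfl hk

lemma Lo_sum {ι : Type} (s : Finset ι) {m : LG r} {a : ι → LR r} (h : ∀ i ∈ s, K.Lo m (a i)) :
    K.Lo m (∑ i ∈ s, a i) := by
  classical
  induction s using Finset.induction_on with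
  | empty => exact Lo_zero m
  | insert b s hb ih =>
    rw [Finset.sum_insert hb]
    exact Lo.add (h b (Finset.mem_insert_self _ _))
      (ih fun i hi => h i (Finset.mem_insert_of_mem hi))

lemma exists_of_coeff_mul {a b : LR r} {k : LG r} (h : (a * b).coeff k ≠ 0) :
    ∃ p q, a.coeff p ≠ 0 ∧ b.coeff q ≠ 0 ∧ p + q = k := by
  classical
  by_contra hcon
  push Not at hcon
  apply h
  rw [AddMonoidAlgebra.coeff_mul]
  refine Finset.sum_eq_zero fun p hp => Finset.sum_eq_zero fun q hq => ?_
  show (if p + q = k then a.coeff p * b.coeff q else 0) = 0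
  rw [if_neg]
  exact hcon p q (Finsupp.mem_support_iff.1 hp) (Finsupp.mem_support_iff.1 hq)

lemma Lo.mul {m n : LG r} {a b : LR r} (ha : K.Lo m a) (hb : K.Lo n b) :
    K.Lo (m + n) (a * b) := by
  intro k hk
  obtain ⟨p, q, hp, hq, rfl⟩ := exists_of_coeff_mul hk
  rw [key_add, key_add]
  exact add_le_add (ha p hp) (hb q hq)

lemma coeff_mul_lo {m n : LG r} {a b : LR r} (ha : K.Lo m a) (hb : K.Lo n b) :
    (a * b).coeff (m + n) = a.coeff m * b.coeff n := by
  apply AddMonoidAlgebra.coeff_mul_add_of_uniqueAdd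
  intro p q hp hq hpq
  have h1 := ha p (Finsupp.mem_support_iff.1 hp)
  have h2 := hb q (Finsupp.mem_support_iff.1 hq)
  have h3 : K.key p + K.key q = K.key m + K.key n := by rw [← key_add, ← key_add, hpq]
  have h4 : K.key p = K.key m := by
    by_contra hne
    have h5 : K.key m < K.key p := lt_of_le_of_ne h1 (Ne.symm hne)
    exact absurd h3 (ne_of_gt (add_lt_add_of_lt_of_le h5 h2))
  have h5 : p = m := key_inj h4
  refine ⟨h5, ?_⟩
  rw [h5] at hpq
  exact add_left_cancel hpq

lemma Lo_EE {m : LG r} {a : LR r} (ha : K.Lo m a) (σ : LG r →+ ℂ) : K.Lo m (EE σ a) := by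
  intro k hk
  rw [EE_coeff] at hk
  exact ha k (fun h => hk (by rw [h, smul_zero]))

lemma Lo_dz {m : LG r} {a : LR r} (ha : K.Lo m a) : K.Lo m (dz a) := by
  intro k hk
  rw [dz_coeff] at hk
  exact ha k (fun h => hk (by rw [h, derivative_zero]))

/-! ### Components of a derivation -/

lemma bd_sg (i : Option (Fin r)) (n : LG r) (P : ℂ[X]) : ∃ Q, K.bd i (sg n P) = sg n Q := by
  cases i with
  | none => exact ⟨_, dz_sg _ _⟩
  | some k => exact ⟨_, EE_sg _ _ _⟩

lemma bd_coeff (i : Option (Fin r)) (a : LR r) (n : LG r) :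
    K.bd i (sg n (a.coeff n)) = sg n ((K.bd i a).coeff n) := by
  cases i with
  | none =>
    change dz _ = sg n ((dz a).coeff n)
    rw [dz_sg, dz_coeff]
  | some k =>
    change EE _ _ = sg n ((EE _ a).coeff n)
    rw [EE_sg, EE_coeff]

lemma Lo_bd {m : LG r} {a : LR r} (ha : K.Lo m a) (i : Option (Fin r)) :
    K.Lo m (K.bd i a) := by
  cases i with
  | none => exact Lo_dz ha
  | some k => exact Lo_EE ha _

/-- The homogeneous component of degree `d` of a derivation, on the ambient algebra. -/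
def compR (V : VF K.AA) (d : LG r) : Derivation ℂ (LR r) (LR r) :=
  ∑ i, (sg d ((cf V i).coeff d)) • K.bd i

lemma compR_apply (V : VF K.AA) (d : LG r) (a : LR r) :
    compR V d a = ∑ i, sg d ((cf V i).coeff d) * K.bd i a := by
  unfold compR
  rw [der_sum_apply]
  rfl

lemma sum_coeff {ι : Type} (s : Finset ι) (f : ι → LR r) (n : LG r) :
    (∑ i ∈ s, f i).coeff n = ∑ i ∈ s, (f i).coeff n := by
  classical
  induction s using Finset.induction_on with
  | empty => rfl
  | insert a s ha ih =>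
    rw [Finset.sum_insert ha, Finset.sum_insert ha, AddMonoidAlgebra.coeff_add,
      Finsupp.add_apply, ih]

lemma compR_sg (V : VF K.AA) (d n : LG r) (P : ℂ[X]) :
    compR V d (sg n P) = sg (d + n) ((hat V (sg n P)).coeff (d + n)) := by
  rw [compR_apply, hat_eq, sum_coeff, sg_sum]
  refine Finset.sum_congr rfl fun i _ => ?_
  obtain ⟨Q, hQ⟩ := bd_sg (K := K) i n P
  rw [hQ, sg_mul]
  congr 1
  exact (AddMonoidAlgebra.coeff_mul_single_add _ _ _ _).symm

lemma compR_pres (V : VF K.AA) (d : LG r) : ∀ a ∈ K.A, compR V d a ∈ K.A := by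
  refine preserves_of_sg _ fun n P h => ?_
  rw [compR_sg]
  apply coeff_mem
  have := hat_inc V (mkA (sg n P) h)
  rw [inc_mkA] at this
  rw [this]
  exact inc_mem _

/-- The homogeneous component of degree `d` of a derivation. -/
def comp (V : VF K.AA) (d : LG r) : VF K.AA := restr (compR V d) (compR_pres V d)

lemma comp_hom (V : VF K.AA) (d : LG r) : IsHom (comp V d) d := by
  intro n P h
  refine ⟨(hat V (sg n P)).coeff (d + n), ?_⟩
  change compR V d (sg n P) = _
  rw [compR_sg, add_comm n d]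

/-- The leading part of an element. -/
def lead (m : LG r) (a : K.AA) : K.AA := mkA (sg m ((inc a).coeff m)) (coeff_mem (inc_mem a) m)

lemma lead_step {V : VF K.AA} {e m : LG r} (hV : ∀ i, K.Lo e (cf V i)) {a : K.AA}
    (ha : K.Lo m (inc a)) :
    K.Lo (e + m) (inc (V a)) ∧ lead (e + m) (V a) = comp V e (lead m a) := by
  rw [← hat_inc, hat_eq]
  constructor
  · exact Lo_sum _ fun i _ => Lo.mul (hV i) (Lo_bd ha i)
  · apply inc_inj
    change sg (e + m) ((inc (V a)).coeff (e + m)) = compR V e (sg m ((inc a).coeff m))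
    rw [← hat_inc, hat_eq, compR_apply, sum_coeff, sg_sum]
    refine Finset.sum_congr rfl fun i _ => ?_
    rw [coeff_mul_lo (hV i) (Lo_bd ha i), bd_coeff, sg_mul]

lemma lead_iter {V : VF K.AA} {e : LG r} (hV : ∀ i, K.Lo e (cf V i)) (k : ℕ) {m : LG r}
    {a : K.AA} (ha : K.Lo m (inc a)) : ∃ m', K.Lo m' (inc ((⇑V)^[k] a)) ∧
      lead m' ((⇑V)^[k] a) = (⇑(comp V e))^[k] (lead m a) := by
  induction k generalizing m a with
  | zero => exact ⟨m, ha, rfl⟩
  | succ k ih =>
    obtain ⟨h1, h2⟩ := lead_step hV ha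
    obtain ⟨m', h3, h4⟩ := ih h1
    exact ⟨m', h3, by rw [Function.iterate_succ_apply, h4, h2, Function.iterate_succ_apply]⟩

lemma lead_zero (m : LG r) : lead m (0 : K.AA) = 0 := by
  apply inc_inj
  change sg m ((inc (0 : K.AA)).coeff m) = inc (0 : K.AA)
  rw [map_zero]
  exact sg_zero m

lemma Lo_sg (n : LG r) (P : ℂ[X]) : K.Lo n (sg n P) := by
  intro k hk
  rw [sg_coeff] at hk
  split_ifs at hk with h
  · rw [h]
  · exact absurd rfl hk

lemma comp_lnd {V : VF K.AA} (hV : IsLND V) {e : LG r} (he : ∀ i, K.Lo e (cf V i)) :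
    IsLND (comp V e) := by
  refine isLND_restr _ _ ?_
  intro n P h
  obtain ⟨k, hk⟩ := hV (mkA (sg n P) h)
  refine ⟨k, ?_⟩
  obtain ⟨m', -, h2⟩ := lead_iter he k (m := n) (a := mkA (sg n P) h) (Lo_sg n P)
  rw [hk, lead_zero] at h2
  have h3 : lead n (mkA (sg n P) h) = mkA (sg n P) h := by
    apply inc_inj
    change sg n ((sg n P).coeff n) = sg n P
    rw [sg_coeff_same]
  rw [h3] at h2
  have h4 := congrArg inc h2
  rw [map_zero] at h4
  have h5 := inc_iterate (compR V e) (compR_pres V e) k (mkA (sg n P) h)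
  rw [inc_mkA] at h5
  rw [← h5]
  exact h4.symm

/-- A nonzero element has a lowest exponent. -/
lemma exists_lo {a : LR r} (ha : a ≠ 0) : ∃ m, K.Lo m a ∧ a.coeff m ≠ 0 := by
  have hne : a.coeff.support.Nonempty := by
    rw [Finsupp.support_nonempty_iff]
    exact fun h => ha (AddMonoidAlgebra.coeff_eq_zero.1 h)
  obtain ⟨m, hm, hmin⟩ := Finset.exists_min_image a.coeff.support K.key hne
  exact ⟨m, fun k hk => hmin k (Finsupp.mem_support_iff.2 hk), Finsupp.mem_support_iff.1 hm⟩

lemma exists_lo_der {V : VF K.AA} (hV : V ≠ 0) :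
    ∃ e, (∀ i, K.Lo e (cf V i)) ∧ comp V e ≠ 0 := by
  classical
  let S : Finset (LG r) :=
    Finset.univ.biUnion (fun i : Option (Fin r) => (cf V i).coeff.support)
  have hne : S.Nonempty := by
    by_contra hS
    rw [Finset.not_nonempty_iff_eq_empty] at hS
    have h0 : ∀ i, cf V i = 0 := by
      intro i
      rw [← AddMonoidAlgebra.coeff_eq_zero, ← Finsupp.support_eq_empty]
      rw [← Finset.subset_empty, ← hS]
      exact Finset.subset_biUnion_of_mem
        (fun i : Option (Fin r) => (cf V i).coeff.support) (Finset.mem_univ i)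
    apply hV
    refine Derivation.ext fun a => inc_inj ?_
    rw [← hat_inc, hat_eq]
    change _ = inc (0 : K.AA)
    rw [map_zero]
    exact Finset.sum_eq_zero fun i _ => by rw [h0 i, zero_mul]
  obtain ⟨e, he, hmin⟩ := Finset.exists_min_image S K.key hne
  refine ⟨e, ?_, ?_⟩
  · intro i k hk
    refine hmin k ?_
    rw [Finset.mem_biUnion]
    exact ⟨i, Finset.mem_univ i, Finsupp.mem_support_iff.2 hk⟩
  · intro h0
    rw [Finset.mem_biUnion] at he
    obtain ⟨i, -, hi⟩ := he
    rw [Finsupp.mem_support_iff] at hi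
    apply hi
    have hz : ∀ a : K.AA, compR V e (inc a) = 0 := by
      intro a
      have h1 : inc (comp V e a) = 0 := by rw [h0]; exact map_zero inc
      exact h1
    cases i with
    | none =>
      have h1 := hz zA
      change compR V e zz = 0 at h1
      rw [compR_apply, Fintype.sum_option, bd_none_zz, mul_one] at h1
      simp only [bd_some_zz, mul_zero, Finset.sum_const_zero, add_zero] at h1
      exact AddMonoidAlgebra.single_eq_zero.1 h1
    | some k =>
      have h1 := hz (K.x k)
      rw [inc_x, compR_apply, Fintype.sum_option, bd_none_e, mul_zero, zero_add] at h1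
      simp only [bd_some_e, mul_ite, mul_zero] at h1
      rw [Finset.sum_ite_eq' Finset.univ k, if_pos (Finset.mem_univ k), sg_mul, mul_one] at h1
      exact AddMonoidAlgebra.single_eq_zero.1 h1

/-! ### The weight filtration -/

/-- All exponents of `a` have weight at least `j`. -/
def Cfg.NN (K : Cfg r I) (j : ℤ) (a : LR r) : Prop := ∀ k, a.coeff k ≠ 0 → j ≤ K.w k

lemma NN.add {j : ℤ} {a b : LR r} (ha : K.NN j a) (hb : K.NN j b) : K.NN j (a + b) := by
  intro k hk
  rw [AddMonoidAlgebra.coeff_add, Finsupp.add_apply] at hk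
  by_cases h : a.coeff k = 0
  · rw [h, zero_add] at hk; exact hb k hk
  · exact ha k h

lemma NN_zero (j : ℤ) : K.NN j (0 : LR r) := by
  intro k hk
  exact absurd rfl hk

lemma NN_sum {ι : Type} (s : Finset ι) {j : ℤ} {a : ι → LR r} (h : ∀ i ∈ s, K.NN j (a i)) :
    K.NN j (∑ i ∈ s, a i) := by
  classical
  induction s using Finset.induction_on with
  | empty => exact NN_zero j
  | insert b s hb ih =>
    rw [Finset.sum_insert hb]
    exact NN.add (h b (Finset.mem_insert_self _ _))
      (ih fun i hi => h i (Finset.mem_insert_of_mem hi))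

lemma NN.mul {i j : ℤ} {a b : LR r} (ha : K.NN i a) (hb : K.NN j b) :
    K.NN (i + j) (a * b) := by
  intro k hk
  obtain ⟨p, q, hp, hq, rfl⟩ := exists_of_coeff_mul hk
  rw [map_add]
  exact add_le_add (ha p hp) (hb q hq)

lemma Lo.NN {m : LG r} {a : LR r} (ha : K.Lo m a) : K.NN (K.w m) a :=
  fun k hk => key_fst (ha k hk)

lemma NN_EE {j : ℤ} {a : LR r} (ha : K.NN j a) (σ : LG r →+ ℂ) : K.NN j (EE σ a) := by
  intro k hk
  rw [EE_coeff] at hk
  exact ha k (fun h => hk (by rw [h, smul_zero]))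

lemma NN_dz {j : ℤ} {a : LR r} (ha : K.NN j a) : K.NN j (dz a) := by
  intro k hk
  rw [dz_coeff] at hk
  exact ha k (fun h => hk (by rw [h, derivative_zero]))

lemma NN_bd {j : ℤ} {a : LR r} (ha : K.NN j a) (i : Option (Fin r)) : K.NN j (K.bd i a) := by
  cases i with
  | none => exact NN_dz ha
  | some k => exact NN_EE ha _

lemma NN_der {V : VF K.AA} {i j : ℤ} (hV : ∀ k, K.NN i (cf V k)) {a : K.AA}
    (ha : K.NN j (inc a)) : K.NN (i + j) (inc (V a)) := by
  rw [← hat_inc, hat_eq]
  exact NN_sum _ fun k _ => NN.mul (hV k) (NN_bd ha k)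

lemma NN.mono {i j : ℤ} {a : LR r} (hij : i ≤ j) (ha : K.NN j a) : K.NN i a :=
  fun k hk => hij.trans (ha k hk)

/-- Overshears preserve the weight filtration. -/
lemma overshear_NN {V : VF K.AA} (hV : IsOvershear V) {j : ℤ} {a : K.AA}
    (ha : K.NN j (inc a)) : K.NN j (inc (V a)) := by
  obtain ⟨Θ, f, hΘ, hf, rfl⟩ := hV
  change K.NN j (inc (f * Θ a))
  rw [map_mul]
  by_cases h1 : Θ = 0
  · rw [h1]
    change K.NN j (inc f * inc (0 : K.AA))
    rw [map_zero, mul_zero]
    exact NN_zero j
  by_cases h2 : inc f = 0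
  · rw [h2, zero_mul]
    exact NN_zero j
  obtain ⟨e, he, hne⟩ := exists_lo_der h1
  obtain ⟨m, hm, hm0⟩ := exists_lo (K := K) h2
  have h3 := lead_step he hm
  have h4 := lead_step he h3.1
  have h5 : comp Θ e (comp Θ e (lead m f)) = 0 := by
    rw [← h3.2, ← h4.2, hf, lead_zero]
  have h6 : 0 ≤ K.w m + K.w e :=
    overshear_weight (comp_lnd hΘ he) hne (comp_hom Θ e) (coeff_mem (inc_mem f) m) hm0 h5
  have h7 := NN.mul (Lo.NN hm) (NN_der (fun k => Lo.NN (he k)) ha)
  exact NN.mono (by omega) h7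

/-- The Lie algebra of the derivations preserving the weight filtration. -/
def filt (K : Cfg r I) (j : ℤ) : LieSubalgebra ℂ (VF K.AA) where
  carrier := {V | ∀ a : K.AA, K.NN j (inc a) → K.NN j (inc (V a))}
  add_mem' := by
    intro V W hV hW a ha
    change K.NN j (inc (V a + W a))
    rw [map_add]
    exact NN.add (hV a ha) (hW a ha)
  zero_mem' := by
    intro a _
    change K.NN j (inc (0 : K.AA))
    rw [map_zero]
    exact NN_zero j
  smul_mem' := by
    intro c V hV a ha
    change K.NN j (inc (c • V a))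
    rw [map_smul]
    intro k hk
    rw [AddMonoidAlgebra.coeff_smul, Finsupp.smul_apply] at hk
    exact hV a ha k (fun h => hk (by rw [h, smul_zero]))
  lie_mem' := by
    intro V W hV hW a ha
    rw [Derivation.commutator_apply, map_sub, sub_eq_add_neg]
    refine NN.add (hV _ (hW a ha)) ?_
    intro k hk
    rw [AddMonoidAlgebra.coeff_neg, Finsupp.neg_apply] at hk
    exact hW _ (hV a ha) k (fun h => hk (by rw [h, neg_zero]))

/-- The algebra does not have the overshear density property. -/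
theorem not_overshearDensity : ¬ OvershearDensity K.AA := by
  intro h
  obtain ⟨g, hg, hw⟩ := K.w_pos
  have h1 : LieSubalgebra.lieSpan ℂ (VF K.AA) {V | IsOvershear V} ≤ filt K (K.w g) := by
    rw [LieSubalgebra.lieSpan_le]
    intro V hV a ha
    exact overshear_NN hV ha
  unfold OvershearDensity at h
  rw [h] at h1
  let σ : LG r →+ ℂ := (Int.castAddHom ℂ).comp K.w
  let U : VF K.AA := mkA (sg (-g + -g) (K.W (-g + -g))) (W_mem _) • EA σ
  have h2 : U ∈ filt K (K.w g) := h1 (LieSubalgebra.mem_top _)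
  have h3 : K.NN (K.w g) (inc (mkA (tt g) (tt_mem hg))) := Lo.NN (Lo_sg g 1)
  have h4 := h2 (mkA (tt g) (tt_mem hg)) h3
  have h5 : inc (U (mkA (tt g) (tt_mem hg))) =
      sg (-g + -g + g) (K.W (-g + -g) * (σ g • 1)) := by
    change inc (mkA (sg (-g + -g) (K.W (-g + -g))) (W_mem _) * EA σ (mkA (tt g) (tt_mem hg))) = _
    rw [map_mul]
    change sg (-g + -g) (K.W (-g + -g)) * EE σ (sg g 1) = _
    rw [EE_sg, sg_mul]
  rw [h5] at h4
  have hσ : σ g ≠ 0 := by
    change ((K.w g : ℤ) : ℂ) ≠ 0
    exact_mod_cast hw.ne'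
  have h6 := h4 (-g + -g + g) (by
    rw [sg_coeff_same]
    exact mul_ne_zero (W_ne_zero _) (smul_ne_zero hσ one_ne_zero))
  rw [map_add, map_add, map_neg] at h6
  omega

end

end Pool.Agent.KS6_5.FAD
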