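import Pool.Agent.KS6_5.FAD.Ext
import Pool.Graph.R_pool_sql_team_seeded_f72693b1.W485.Deg

/-!
Homogeneous locally nilpotent derivations of the cone algebra.
-/

namespace Pool.Agent.KS6_5.FAD

open Polynomial
open Pool.Agent.W485 (VF IsLND IsOvershear IsCompleteField Dg exists_Dg Dg.mul Dg.unique Dg.succ
  Dg.ne_zero ker_of_mul_ker)

noncomputable section

variable {r : ℕ} {I : Type} [Fintype I] {K : Cfg r I}

/-- Homogeneous derivations. -/
def IsHom (D : VF K.AA) (e : LG r) : Prop :=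
  ∀ n P (h : sg n P ∈ K.A), ∃ Q, inc (D (mkA (sg n P) h)) = sg (n + e) Q

lemma l_coprime {i j : I} (h : i ≠ j) : IsCoprime (K.l i) (K.l j) :=
  isCoprime_X_sub_C_of_isUnit_sub (sub_ne_zero.2 fun h' => h (K.y_inj h')).isUnit

/-- The generator of the homogeneous component of degree `n`. -/
def Cfg.W (K : Cfg r I) (n : LG r) : ℂ[X] := ∏ i, K.l i ^ cw (K.co i n)

lemma W_ne_zero (n : LG r) : K.W n ≠ 0 :=
  Finset.prod_ne_zero_iff.2 fun i _ => pow_ne_zero _ (l_ne_zero i)

lemma W_mem (n : LG r) : sg n (K.W n) ∈ K.A := by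
  rw [sg_mem]
  intro i
  exact Finset.dvd_prod_of_mem (fun i => K.l i ^ cw (K.co i n)) (Finset.mem_univ i)

lemma D_pz (D : VF K.AA) (P : ℂ[X]) : D (pz P) = pz (derivative P) * D zA := by
  rw [pz_eq, pz_eq, Derivation.map_aeval, smul_eq_mul]

lemma pz_mul (P Q : ℂ[X]) : (pz (P * Q) : K.AA) = pz P * pz Q := by
  rw [pz_eq, pz_eq, pz_eq, map_mul]

lemma pz_ne_zero {P : ℂ[X]} (h : P ≠ 0) : (pz P : K.AA) ≠ 0 := by
  intro h'
  have : (sg 0 P : LR r) = 0 := congrArg inc h'
  exact sg_ne_zero.2 h this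

lemma mkA_ne_zero {n : LG r} {P : ℂ[X]} {h : sg n P ∈ K.A} (hP : P ≠ 0) :
    mkA (sg n P) h ≠ 0 := by
  intro h'
  have : sg n P = 0 := congrArg inc h'
  exact sg_ne_zero.2 hP this

lemma mkA_mul (m n : LG r) (P Q : ℂ[X]) (hP : sg m P ∈ K.A) (hQ : sg n Q ∈ K.A)
    (h : sg (m + n) (P * Q) ∈ K.A) :
    mkA (sg m P) hP * mkA (sg n Q) hQ = mkA (sg (m + n) (P * Q)) h := by
  apply inc_inj
  rw [map_mul]
  exact sg_mul _ _ _ _

lemma sg_mem_add {m n : LG r} {P Q : ℂ[X]} (hP : sg m P ∈ K.A) (hQ : sg n Q ∈ K.A) :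
    sg (m + n) (P * Q) ∈ K.A := by
  rw [← sg_mul]
  exact K.A.mul_mem hP hQ

lemma VF_eq_zero_of_sg {D : VF K.AA}
    (h : ∀ n P (h : sg n P ∈ K.A), D (mkA (sg n P) h) = 0) : D = 0 := by
  refine Derivation.ext fun a => ?_
  change D a = 0
  refine AA_induction (p := fun a => D a = 0) (map_zero D) ?_ h a
  intro a b ha hb
  rw [map_add, ha, hb, add_zero]

/-- A nonzero locally nilpotent derivation does not kill `z`. -/
lemma D_zA_ne_zero {D : VF K.AA} (hD : IsLND D) (h0 : D ≠ 0) : D zA ≠ 0 := by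
  intro hz
  apply h0
  apply VF_eq_zero_of_sg
  intro n P h
  by_cases hP : P = 0
  · subst hP
    have : mkA (sg n 0) h = 0 := inc_inj (by rw [inc_mkA, sg_zero, map_zero])
    rw [this, map_zero]
  · refine ker_of_mul_ker hD (mkA_ne_zero hP) (mkA_ne_zero (W_ne_zero (-n)) (h := W_mem (-n))) ?_
    rw [mkA_mul _ _ _ _ _ _ (sg_mem_add h (W_mem (-n)))]
    have : mkA (sg (n + -n) (P * K.W (-n))) (sg_mem_add h (W_mem (-n))) =
        pz (P * K.W (-n)) := by
      apply inc_inj
      change sg (n + -n) _ = sg 0 _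
      rw [add_neg_cancel]
    rw [this, D_pz, hz, mul_zero]

lemma tt_gg_mem (i : I) : tt (K.gg i) ∈ K.A := tt_mem fun j => (K.gg_pos i j).le

/-- The derivative of `W (- 2 g_i)` does not vanish at `y i`. -/
lemma W_gg_coprime (i : I) : IsCoprime (K.l i) (derivative (K.W (-(K.gg i) + -(K.gg i)))) := by
  classical
  have h1 : K.W (-(K.gg i) + -(K.gg i)) =
      K.l i * ∏ j ∈ Finset.univ.erase i, K.l j ^ cw (K.co j (-(K.gg i) + -(K.gg i))) := by
    unfold Cfg.W
    rw [← Finset.mul_prod_erase _ _ (Finset.mem_univ i)]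
    congr 1
    rw [map_add, map_neg, K.gg_self]
    exact pow_one _
  have h2 : IsCoprime (K.l i)
      (∏ j ∈ Finset.univ.erase i, K.l j ^ cw (K.co j (-(K.gg i) + -(K.gg i)))) := by
    refine IsCoprime.prod_right fun j hj => ?_
    exact IsCoprime.pow_right (l_coprime (Finset.ne_of_mem_erase hj).symm)
  rw [h1, derivative_mul, derivative_l, one_mul]
  exact h2.add_mul_left_right _

/-- The key divisibility for the value of a homogeneous derivation at `z`. -/
lemma dvd_Dz {D : VF K.AA} {e : LG r} (hom : IsHom D e) {P : ℂ[X]}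
    (hP : inc (D zA) = sg e P) (i : I) : K.l i ^ cw (K.co i e - 1) ∣ P := by
  set g := K.gg i with hg
  obtain ⟨Qf, hQf⟩ := hom g 1 (tt_gg_mem i)
  obtain ⟨Qh, hQh⟩ := hom (-g + -g) (K.W (-g + -g)) (W_mem _)
  set f := mkA (tt g) (tt_gg_mem i) with hf
  set h := mkA (sg (-g + -g) (K.W (-g + -g))) (W_mem _) with hh
  have e1 : f * f * h = pz (K.W (-g + -g)) := by
    apply inc_inj
    rw [map_mul, map_mul]
    change tt g * tt g * sg (-g + -g) (K.W (-g + -g)) = sg 0 _
    rw [tt_mul, sg_mul, one_mul]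
    congr 1
    abel
  have e2 := congrArg D e1
  rw [D_pz, Derivation.leibniz, Derivation.leibniz] at e2
  have e3 := congrArg inc e2
  simp only [smul_eq_mul, map_add, map_mul] at e3
  have if1 : inc f = tt g := rfl
  have ih1 : inc h = sg (-g + -g) (K.W (-g + -g)) := rfl
  rw [hQf, hQh, hP, if1, ih1, inc_pz, tt_mul, sg_mul, sg_mul, sg_mul, ← sg_add, sg_mul] at e3
  have a1 : g + g + (-g + -g + e) = e := by abel
  have a2 : -g + -g + (g + (g + e)) = e := by abel
  rw [a1, a2, zero_add, ← sg_add] at e3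
  have e4 := congrArg (fun F => F.coeff e) e3
  simp only [sg_coeff_same] at e4
  -- now an identity of polynomials
  have hcop : IsCoprime (K.l i ^ cw (K.co i e - 1)) (derivative (K.W (-g + -g))) :=
    IsCoprime.pow_left (W_gg_coprime i)
  refine hcop.dvd_of_dvd_mul_left ?_
  rw [← e4]
  have mf := inc_mem (D f)
  have mh := inc_mem (D h)
  rw [hQf, sg_mem] at mf
  rw [hQh, sg_mem] at mh
  have mf' := mf i
  have mh' := mh i
  rw [map_add, hg, K.gg_self] at mf'
  rw [map_add, map_add, map_neg, hg, K.gg_self] at mh'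
  refine dvd_add ?_ ?_
  · refine dvd_trans (pow_dvd_pow _ ?_) (dvd_mul_of_dvd_right mh' _)
    unfold cw; omega
  · have hW : K.l i ∣ K.W (-g + -g) := by
      have := (sg_mem.1 (W_mem (K := K) (-g + -g))) i
      rw [map_add, map_neg, hg, K.gg_self] at this
      exact dvd_trans (dvd_pow_self _ (by decide)) this
    have : K.l i ^ (1 + cw (1 + K.co i e)) ∣ K.W (-g + -g) * (1 * Qf + 1 * Qf) := by
      rw [pow_add, pow_one]
      refine mul_dvd_mul hW ?_
      rw [one_mul]
      exact dvd_add mf' mf'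
    refine dvd_trans (pow_dvd_pow _ ?_) this
    unfold cw; omega

/-- A homogeneous kernel element has at most one negative exponent. -/
lemma no_two_neg {D : VF K.AA} (hD : IsLND D) (h0 : D ≠ 0) {e : LG r} (hom : IsHom D e)
    {n : LG r} {P : ℂ[X]} (h : sg n P ∈ K.A) (hP : P ≠ 0) (hk : D (mkA (sg n P) h) = 0)
    {i j : I} (hij : i ≠ j) (hi : K.co i n < 0) (hj : K.co j n < 0) : False := by
  obtain ⟨Pz, hPz⟩ := hom 0 X zz_mem
  have hPz' : inc (D zA) = sg e Pz := by rw [zero_add] at hPz; exact hPz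
  have hdvd := dvd_Dz hom hPz'
  have hPm := sg_mem.1 h
  have hli : K.l i ∣ P := dvd_trans (dvd_pow_self _ (by unfold cw; omega)) (hPm i)
  have hlj : K.l j ∣ P := dvd_trans (dvd_pow_self _ (by unfold cw; omega)) (hPm j)
  obtain ⟨P', hP'⟩ := (l_coprime hij).mul_dvd hli hlj
  have hmem : sg (n + (e + e)) (P' * (Pz * Pz)) ∈ K.A := by
    rw [sg_mem]
    intro a
    have key : ∀ b : I, b ≠ a → K.co b n < 0 → K.l b ∣ P → K.co a n < 0 → a ≠ b →
        P = K.l a * K.l b * P' → K.l a ^ cw (K.co a (n + (e + e))) ∣ P' * (Pz * Pz) := by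
      intro b hba _ _ han hab hPab
      have h1 : K.l a ^ (cw (K.co a n) - 1) ∣ P' := by
        have h2 := hPm a
        obtain ⟨c, hc⟩ : ∃ c, cw (K.co a n) = c + 1 :=
          ⟨cw (K.co a n) - 1, by unfold cw; omega⟩
        rw [hPab, hc, pow_succ', mul_assoc] at h2
        have h3 := (mul_dvd_mul_iff_left (l_ne_zero a)).1 h2
        rw [hc, Nat.add_sub_cancel]
        exact (IsCoprime.pow_left (l_coprime hab)).dvd_of_dvd_mul_left h3
      have h4 : K.l a ^ ((cw (K.co a n) - 1) + (cw (K.co a e - 1) + cw (K.co a e - 1))) ∣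
          P' * (Pz * Pz) := by
        rw [pow_add, pow_add]
        exact mul_dvd_mul h1 (mul_dvd_mul (hdvd a) (hdvd a))
      refine dvd_trans (pow_dvd_pow _ ?_) h4
      rw [map_add, map_add]
      unfold cw; omega
    by_cases hai : a = i
    · subst hai
      exact key j (Ne.symm hij) hj hlj hi hij hP'
    by_cases haj : a = j
    · subst haj
      exact key i hij hi hli hj (Ne.symm hij) (by rw [hP']; ring)
    · have h1 : K.l a ^ cw (K.co a n) ∣ P' := by
        have h2 := hPm a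
        rw [hP'] at h2
        exact (IsCoprime.pow_left ((l_coprime hai).mul_right (l_coprime haj))).dvd_of_dvd_mul_left
          h2
      have h4 : K.l a ^ (cw (K.co a n) + (cw (K.co a e - 1) + cw (K.co a e - 1))) ∣
          P' * (Pz * Pz) := by
        rw [pow_add, pow_add]
        exact mul_dvd_mul h1 (mul_dvd_mul (hdvd a) (hdvd a))
      refine dvd_trans (pow_dvd_pow _ ?_) h4
      rw [map_add, map_add]
      unfold cw; omega
  -- the identity `k (D z)^2 = (z - y_i) (z - y_j) h`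
  have hid : mkA (sg n P) h * (D zA * D zA) =
      pz (K.l i) * pz (K.l j) * mkA (sg (n + (e + e)) (P' * (Pz * Pz))) hmem := by
    apply inc_inj
    rw [map_mul, map_mul, map_mul, map_mul, hPz']
    change sg n P * (sg e Pz * sg e Pz) = sg 0 (K.l i) * sg 0 (K.l j) * sg (n + (e + e)) _
    rw [sg_mul, sg_mul, sg_mul, sg_mul, zero_add, zero_add, hP']
    congr 1
    ring
  have hzne : D zA ≠ 0 := D_zA_ne_zero hD h0
  have hz : (zA : K.AA) ≠ 0 := by
    intro hz; apply hzne; rw [hz, map_zero]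
  obtain ⟨Z, hZ⟩ := exists_Dg hD hz
  obtain ⟨Z', rfl⟩ : ∃ Z', Z = Z' + 1 := by
    refine ⟨Z - 1, ?_⟩
    have : Z ≠ 0 := by
      intro h; rw [h] at hZ; exact hzne hZ.2
    omega
  have hl : ∀ a : I, Dg D (Z' + 1) (pz (K.l a)) := by
    intro a
    have h1 : D (pz (K.l a)) = D zA := by
      rw [D_pz, derivative_l]
      have : (pz 1 : K.AA) = 1 := rfl
      rw [this, one_mul]
    constructor
    · rw [Function.iterate_succ_apply, h1, ← Function.iterate_succ_apply]; exact hZ.1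
    · rw [Function.iterate_succ_apply, h1, ← Function.iterate_succ_apply]; exact hZ.2
  have hk0 : Dg D 0 (mkA (sg n P) h) := ⟨mkA_ne_zero hP, hk⟩
  have h1 := hk0.mul (hZ.succ.mul hZ.succ)
  rw [hid] at h1
  have hne : mkA (sg (n + (e + e)) (P' * (Pz * Pz))) hmem ≠ 0 := by
    intro h'
    rw [h', mul_zero] at h1
    exact h1.ne_zero rfl
  obtain ⟨c, hc⟩ := exists_Dg hD hne
  have h2 := ((hl i).mul (hl j)).mul hc
  have h3 := h1.unique h2
  omega

/-- Homogeneous kernel elements have nonnegative weight. -/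
lemma ker_weight {D : VF K.AA} (hD : IsLND D) (h0 : D ≠ 0) {e : LG r} (hom : IsHom D e)
    {n : LG r} {P : ℂ[X]} (h : sg n P ∈ K.A) (hP : P ≠ 0) (hk : D (mkA (sg n P) h) = 0) :
    0 ≤ K.w n := by
  by_contra hn
  obtain ⟨i, j, hij, hi, hj⟩ := K.w_neg n (not_le.1 hn)
  exact no_two_neg hD h0 hom h hP hk hij hi hj

lemma iter_hom {D : VF K.AA} {e : LG r} (hom : IsHom D e) (k : ℕ) (n : LG r) (P : ℂ[X])
    (h : sg n P ∈ K.A) : ∃ Q, inc ((⇑D)^[k] (mkA (sg n P) h)) = sg (n + k • e) Q := by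
  induction k generalizing n P with
  | zero => exact ⟨P, by rw [zero_smul, add_zero]; rfl⟩
  | succ k ih =>
    obtain ⟨Q, hQ⟩ := hom n P h
    have hQm : sg (n + e) Q ∈ K.A := by rw [← hQ]; exact inc_mem _
    have hD : D (mkA (sg n P) h) = mkA (sg (n + e) Q) hQm := inc_inj hQ
    obtain ⟨Q', hQ'⟩ := ih (n + e) Q hQm
    refine ⟨Q', ?_⟩
    rw [Function.iterate_succ_apply, hD, hQ']
    congr 1
    rw [succ_nsmul]
    abel

/-- A homogeneous nonzero locally nilpotent derivation has nonnegative weight. -/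
lemma der_weight {D : VF K.AA} (hD : IsLND D) (h0 : D ≠ 0) {e : LG r} (hom : IsHom D e) :
    0 ≤ K.w e := by
  have hzne : D zA ≠ 0 := D_zA_ne_zero hD h0
  have hz : (zA : K.AA) ≠ 0 := by
    intro hz; apply hzne; rw [hz, map_zero]
  obtain ⟨Z, hZ⟩ := exists_Dg hD hz
  have hZ0 : Z ≠ 0 := by
    intro h; rw [h] at hZ; exact hzne hZ.2
  obtain ⟨Q, hQ⟩ := iter_hom hom Z 0 X zz_mem
  have hQm : sg (0 + Z • e) Q ∈ K.A := by rw [← hQ]; exact inc_mem _
  have h1 : (⇑D)^[Z] zA = mkA (sg (0 + Z • e) Q) hQm := inc_inj hQ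
  have hQ0 : Q ≠ 0 := by
    intro h
    apply hZ.1
    rw [h1]
    apply inc_inj
    rw [inc_mkA, h, sg_zero, map_zero]
  have h2 : D (mkA (sg (0 + Z • e) Q) hQm) = 0 := by
    rw [← h1, ← Function.iterate_succ_apply' (⇑D)]
    exact hZ.2
  have h3 := ker_weight hD h0 hom hQm hQ0 h2
  have h4 : K.w (0 + Z • e) = Z * K.w e := by
    rw [zero_add, map_nsmul, nsmul_eq_mul]
  rw [h4] at h3
  have h5 : (0 : ℤ) < Z := by omega
  exact nonneg_of_mul_nonneg_right h3 h5

/-- The weight inequality for homogeneous overshears. -/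
lemma overshear_weight {D : VF K.AA} (hD : IsLND D) (h0 : D ≠ 0) {e : LG r} (hom : IsHom D e)
    {m : LG r} {P : ℂ[X]} (h : sg m P ∈ K.A) (hP : P ≠ 0) (hf : D (D (mkA (sg m P) h)) = 0) :
    0 ≤ K.w m + K.w e := by
  by_cases hDf : D (mkA (sg m P) h) = 0
  · have h1 := ker_weight hD h0 hom h hP hDf
    have h2 := der_weight hD h0 hom
    omega
  · obtain ⟨Q, hQ⟩ := hom m P h
    have hQm : sg (m + e) Q ∈ K.A := by rw [← hQ]; exact inc_mem _
    have h1 : D (mkA (sg m P) h) = mkA (sg (m + e) Q) hQm := inc_inj hQ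
    have hQ0 : Q ≠ 0 := by
      intro h
      apply hDf
      rw [h1]
      apply inc_inj
      rw [inc_mkA, h, sg_zero, map_zero]
    rw [h1] at hf
    have h2 := ker_weight hD h0 hom hQm hQ0 hf
    rwa [map_add] at h2

end

end Pool.Agent.KS6_5.FAD
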