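import Pool.Agent.KS6_5.FAD.Flex
import Pool.Agent.KS6_5.FAD.Laurent

/-!
The cone algebra is smooth over the complex numbers.
-/

namespace Pool.Agent.KS6_5.FAD

open Polynomial
open Pool.Agent.W485 (VF IsLND)
open Pool.Agent.W108.OVS (ex exE ex_of_two)

noncomputable section

variable {r : ℕ} {I : Type} [Fintype I] {K : Cfg r I}

theorem smooth_LR (r : ℕ) : Algebra.Smooth ℂ (LR r) := by
  have h1 : Algebra.Smooth ℂ ℂ[X] := ⟨inferInstance, inferInstance⟩
  have h2 : Algebra.Smooth ℂ[X] (LR r) := smooth_laurent ℂ[X] r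
  exact Algebra.Smooth.comp ℂ ℂ[X] (LR r)

/-- Multiplying by a power of the generic monomial lands in the algebra. -/
lemma exists_mul_mem (i : I) (F : LR r) : ∃ N : ℕ, F * tt (K.gg i) ^ N ∈ K.A := by
  have hm : ∀ N : ℕ, tt (K.gg i) ^ N ∈ K.A := fun N => K.A.pow_mem (tt_gg_mem i) N
  induction F using AddMonoidAlgebra.induction_linear with
  | zero => exact ⟨0, by rw [zero_mul]; exact K.A.zero_mem⟩
  | add a b ha hb =>
    obtain ⟨N, hN⟩ := ha
    obtain ⟨M, hM⟩ := hb
    refine ⟨N + M, ?_⟩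
    rw [add_mul]
    refine K.A.add_mem ?_ ?_
    · rw [pow_add, ← mul_assoc]
      exact K.A.mul_mem hN (hm M)
    · rw [add_comm N M, pow_add, ← mul_assoc]
      exact K.A.mul_mem hM (hm N)
  | single n P =>
    refine ⟨∑ j, (-(K.co j n)).toNat, ?_⟩
    rw [tt_pow]
    change sg n P * sg _ 1 ∈ K.A
    rw [sg_mul]
    refine sg_mem_of_nonneg (fun j => ?_) _
    have h1 : (-(K.co j n)).toNat ≤ ∑ j, (-(K.co j n)).toNat :=
      Finset.single_le_sum (f := fun j => (-(K.co j n)).toNat) (fun _ _ => Nat.zero_le _)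
        (Finset.mem_univ j)
    have h2 := K.gg_pos i j
    rw [map_add, map_nsmul, nsmul_eq_mul]
    have h3 : ((∑ j, (-(K.co j n)).toNat : ℕ) : ℤ) ≤
        (∑ j, (-(K.co j n)).toNat : ℕ) * K.co j (K.gg i) :=
      le_mul_of_one_le_right (by omega) (by omega)
    omega

theorem smooth_away_tg (i : I) : Algebra.Smooth ℂ (Localization.Away (K.tg i)) := by
  letI : Algebra K.AA (LR r) := (inc : K.AA →ₐ[ℂ] LR r).toRingHom.toAlgebra
  have hA : ∀ a : K.AA, algebraMap K.AA (LR r) a = inc a := fun _ => rfl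
  haveI : IsScalarTower ℂ K.AA (LR r) := IsScalarTower.of_algebraMap_eq fun c => by
    rw [hA, AlgHom.commutes]
  haveI : IsLocalization.Away (K.tg i) (LR r) :=
    { map_units := by
        rintro ⟨_, N, rfl⟩
        change IsUnit (inc (K.tg i ^ N))
        rw [map_pow]
        refine IsUnit.pow N ?_
        exact IsUnit.of_mul_eq_one (tt (-K.gg i)) (by
          change tt (K.gg i) * tt (-K.gg i) = 1
          rw [tt_mul, add_neg_cancel]
          rfl)
      surj := by
        intro F
        obtain ⟨N, hN⟩ := exists_mul_mem (K := K) i F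
        refine ⟨(mkA _ hN, ⟨K.tg i ^ N, N, rfl⟩), ?_⟩
        change F * inc (K.tg i ^ N) = F * tt (K.gg i) ^ N
        rw [map_pow]
        rfl
      exists_of_eq := by
        intro a b h
        refine ⟨1, ?_⟩
        rw [inc_inj h] }
  have h := smooth_LR r
  exact Algebra.Smooth.of_equiv
    ((IsLocalization.algEquiv (Submonoid.powers (K.tg i)) (LR r)
      (Localization.Away (K.tg i))).restrictScalars ℂ)

theorem smooth_away_map (φ : K.AA ≃ₐ[ℂ] K.AA) (i : I) :
    Algebra.Smooth ℂ (Localization.Away (φ (K.tg i))) := by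
  have h := smooth_away_tg (K := K) i
  have H : Submonoid.map (φ : K.AA →* K.AA) (Submonoid.powers (K.tg i)) =
      Submonoid.powers (φ (K.tg i)) := Submonoid.map_powers _ _
  exact Algebra.Smooth.of_equiv
    (IsLocalization.algEquivOfAlgEquiv (Localization.Away (K.tg i))
      (Localization.Away (φ (K.tg i))) φ H)

/-- The cone algebra is smooth. -/
theorem smooth (K : Cfg r I) : Algebra.Smooth ℂ K.AA := by
  let φ : I → (K.AA ≃ₐ[ℂ] K.AA) := fun i => exE (K.Dk i) (Dk_lnd i) 1
  have hφ : ∀ i, φ i (K.tg i) = K.tg i + K.tk i := by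
    intro i
    have e0 : K.Dk i (K.tg i) = K.tk i := by
      have h1 := Dk_tt i (K.gg i) (tt_gg_mem i) (tt_mem (kg_nonneg i))
      rw [cc_apply, K.gg_self, Int.cast_one, one_smul] at h1
      exact h1
    have e1 : K.Dk i (K.Dk i (K.tg i)) = 0 := by
      rw [e0]
      exact Dk_tt_zero i _ _ (by rw [map_add, K.kap_self, K.gg_self]; norm_num)
    change ex (K.Dk i) (Dk_lnd i) 1 (K.tg i) = _
    rw [ex_of_two _ _ _ _ e1, one_smul, e0]
  let f : I ⊕ I → K.AA := Sum.elim (fun i => K.tg i) (fun i => φ i (K.tg i))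
  have hspan : Ideal.span (Set.range f) = ⊤ := by
    rw [Ideal.eq_top_iff_one]
    refine ideal_top _ fun i => ⟨K.kap i + K.gg i, kg_nonneg i, ?_, ?_⟩
    · rw [map_add, K.kap_self, K.gg_self]; norm_num
    · have h1 : K.tg i ∈ Ideal.span (Set.range f) := Ideal.subset_span ⟨Sum.inl i, rfl⟩
      have h2 : φ i (K.tg i) ∈ Ideal.span (Set.range f) := Ideal.subset_span ⟨Sum.inr i, rfl⟩
      have h3 : mkA (tt (K.kap i + K.gg i)) (tt_mem (kg_nonneg i)) =
          φ i (K.tg i) - K.tg i := by
        rw [hφ, add_sub_cancel_left]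
        rfl
      rw [h3]
      exact Ideal.sub_mem _ h2 h1
  rw [← RingHom.smooth_algebraMap]
  refine RingHom.Smooth.ofLocalizationSpanTarget _ _ hspan ?_
  rintro ⟨_, i, rfl⟩
  cases i with
  | inl i =>
    have h := smooth_away_tg (K := K) i
    rw [← RingHom.smooth_algebraMap] at h
    exact h
  | inr i =>
    have h := smooth_away_map (K := K) (φ i) i
    rw [← RingHom.smooth_algebraMap] at h
    exact h

end

end Pool.Agent.KS6_5.FAD
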